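import Pool.Agent.H308R2.ZS.Stubs

set_option autoImplicit false

open scoped ComplexConjugate Kronecker Matrix.Norms.L2Operator

namespace Pool.Agent.H308R2.ZS.T_JFT

open Pool.Agent.H923R2.FP Pool.Agent.H923R2.FZ Pool.Agent.H308R2.ZS

theorem cs {B : Type} [CStarAlgebra B] (τ : B →ₗ[ℂ] ℂ) (hs : ∀ x, τ (star x) = conj (τ x))
    (hp : ∀ x, 0 ≤ (τ (star x * x)).re) (x w : B) (hx : (τ (star x * x)).re = 0) :
    τ (star w * x) = 0 := by
  set a : ℂ := τ (star w * x) with ha
  have hconj : τ (star x * w) = conj a := by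
    rw [ha, ← hs, star_mul, star_star]
  set M : ℝ := (τ (star w * w)).re with hM
  have hM0 : 0 ≤ M := hp w
  have key : ∀ t : ℝ, 0 ≤ t ^ 2 * Complex.normSq a * M - 2 * t * Complex.normSq a := by
    intro t
    have h := hp (x + (-(t : ℂ) * a) • w)
    have e : τ (star (x + (-(t : ℂ) * a) • w) * (x + (-(t : ℂ) * a) • w))
        = τ (star x * x) + (-(t : ℂ) * a) * conj a + conj (-(t : ℂ) * a) * a
          + (conj (-(t : ℂ) * a) * (-(t : ℂ) * a)) * τ (star w * w) := by
      have e1 : star (x + (-(t : ℂ) * a) • w) = star x + conj (-(t : ℂ) * a) • star w := by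
        rw [star_add, star_smul]; rfl
      rw [e1, add_mul, mul_add, mul_add, mul_smul_comm, smul_mul_assoc, smul_mul_assoc,
        mul_smul_comm, map_add, map_add, map_add, map_smul, map_smul, map_smul, map_smul,
        hconj, ← ha]
      simp only [smul_eq_mul]
      ring
    rw [e] at h
    have e2 : (-(t : ℂ) * a) * conj a = ((-t * Complex.normSq a : ℝ) : ℂ) := by
      rw [mul_assoc, Complex.mul_conj]; push_cast; ring
    have e3 : conj (-(t : ℂ) * a) * a = ((-t * Complex.normSq a : ℝ) : ℂ) := by
      rw [map_mul, map_neg, Complex.conj_ofReal, mul_assoc, mul_comm (conj a) a, Complex.mul_conj]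
      push_cast; ring
    have e4 : conj (-(t : ℂ) * a) * (-(t : ℂ) * a) = ((t ^ 2 * Complex.normSq a : ℝ) : ℂ) := by
      rw [map_mul, map_neg, Complex.conj_ofReal]
      have : -(t : ℂ) * conj a * (-(t : ℂ) * a) = (t : ℂ) ^ 2 * (a * conj a) := by ring
      rw [this, Complex.mul_conj]; push_cast; ring
    rw [e2, e3, e4, Complex.add_re, Complex.add_re, Complex.add_re, Complex.ofReal_re,
      Complex.re_ofReal_mul, hx, ← hM] at h
    linarith
  have hn : 0 ≤ Complex.normSq a := Complex.normSq_nonneg a
  have h1 := key (1 / (M + 1))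
  have hM1 : 0 < M + 1 := by linarith
  have h2 : (1 / (M + 1)) ^ 2 * Complex.normSq a * M - 2 * (1 / (M + 1)) * Complex.normSq a
      = Complex.normSq a * ((M - 2 * (M + 1)) / (M + 1) ^ 2) := by
    field_simp
  rw [h2] at h1
  have h3 : (M - 2 * (M + 1)) / (M + 1) ^ 2 < 0 := by
    apply div_neg_of_neg_of_pos
    · linarith
    · positivity
  have h4 : Complex.normSq a ≤ 0 := by
    by_contra hcon
    push Not at hcon
    have := mul_neg_of_pos_of_neg hcon h3
    linarith
  exact Complex.normSq_eq_zero.1 (le_antisymm h4 hn)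

theorem t_JFT (hTSB : S_TSB) : S_JFT := by
  intro Z _ τ hZ
  obtain ⟨hb, hs⟩ := hTSB Z τ hZ.trace
  have hcont : Continuous τ := by
    have : Continuous (LinearMap.mkContinuous τ 1 (fun x => by rw [one_mul]; exact hb x)) :=
      ContinuousLinearMap.continuous _
    exact this
  let J : Submodule ℂ Z :=
    { carrier := {x | ∀ y, τ (y * x) = 0}
      add_mem' := by
        intro a b ha hb' y
        rw [mul_add, map_add, ha y, hb' y, add_zero]
      zero_mem' := by
        intro y
        rw [mul_zero, map_zero]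
      smul_mem' := by
        intro c x hx y
        rw [mul_smul_comm, map_smul, hx y, smul_zero] }
  have hmem : ∀ x, x ∈ J ↔ ∀ y, τ (y * x) = 0 := fun x => Iff.rfl
  have hcl : IsClosed (J : Set Z) := by
    have : (J : Set Z) = ⋂ y : Z, {x | τ (y * x) = 0} := by
      ext x
      simp only [SetLike.mem_coe, hmem, Set.mem_iInter, Set.mem_ofPred_eq]
    rw [this]
    exact isClosed_iInter fun y =>
      isClosed_eq (hcont.comp (continuous_const.mul continuous_id)) continuous_const
  have hideal : ∀ x ∈ J, ∀ y z, y * x * z ∈ J := by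
    intro x hx y z w
    rw [← mul_assoc, hZ.trace.comm, ← mul_assoc, ← mul_assoc]
    exact hx (z * w * y)
  have hJ : J = ⊥ := by
    rcases hZ.simple J hcl hideal with h | h
    · exact h
    · exfalso
      have h1 : (1 : Z) ∈ J := by rw [h]; trivial
      have h2 := h1 1
      rw [mul_one, hZ.trace.one] at h2
      exact one_ne_zero h2
  refine ⟨hZ.trace.one, hZ.trace.comm, hs, fun x => (hZ.trace.pos x).1, fun x hx => ?_, hb⟩
  have hxJ : x ∈ J := by
    intro y
    have := cs τ hs (fun x => (hZ.trace.pos x).1) x (star y) hx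
    rwa [star_star] at this
  rw [hJ] at hxJ
  exact (Submodule.mem_bot ℂ).1 hxJ

end Pool.Agent.H308R2.ZS.T_JFT
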