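import Pool.Agent.H644R2.Generic

/-!
The combinatorial structure lemma for intersecting families of (possibly degenerate) pairs, the
six-cell inequality and the one-cell inequality.
-/

open Finset

namespace H644R2

/-- A family of pairs contains two disjoint pairs, or lives on three items, or is a star with two
different leaves. -/
lemma structure_lemma {I : Type*} [Nonempty I] (B : Set (Bool → I)) :
    (∃ s ∈ B, ∃ t ∈ B, ∀ e e', s e ≠ t e') ∨
    (∃ x y z, ∀ t ∈ B, ∀ e, t e = x ∨ t e = y ∨ t e = z) ∨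
    (∃ ω n₁ n₂, n₁ ≠ n₂ ∧ (∀ t ∈ B, ∃ e, t e = ω) ∧
      (∃ s ∈ B, ∀ e, s e = ω ∨ s e = n₁) ∧ (∃ t ∈ B, ∀ e, t e = ω ∨ t e = n₂)) := by
  by_cases h1 : ∃ s ∈ B, ∃ t ∈ B, ∀ e e', s e ≠ t e'
  · exact Or.inl h1
  refine Or.inr ?_
  push Not at h1
  by_cases hne : ∃ s, s ∈ B
  swap
  · refine Or.inl ⟨Classical.arbitrary I, Classical.arbitrary I, Classical.arbitrary I, ?_⟩
    intro t ht
    exact absurd ⟨t, ht⟩ hne
  obtain ⟨s₀, hs₀⟩ := hne
  by_cases h2 : ∀ t ∈ B, ∀ e, t e = s₀ true ∨ t e = s₀ false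
  · refine Or.inl ⟨s₀ true, s₀ false, s₀ false, ?_⟩
    intro t ht e
    rcases h2 t ht e with h | h
    · exact Or.inl h
    · exact Or.inr (Or.inl h)
  push Not at h2
  obtain ⟨t₁, ht₁, e₁, hc1, hc2⟩ := h2
  have hc : ∀ f, t₁ e₁ ≠ s₀ f := by
    intro f; cases f
    · exact hc2
    · exact hc1
  have hbool : ∀ e f : Bool, e ≠ f → e = !f := by decide
  obtain ⟨f, hf⟩ : ∃ f, t₁ (!e₁) = s₀ f := by
    obtain ⟨e, e', hee⟩ := h1 t₁ ht₁ s₀ hs₀
    by_cases he : e = e₁
    · rw [he] at hee; exact absurd hee (hc e')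
    · refine ⟨e', ?_⟩
      rw [← hbool e e₁ he]; exact hee
  by_cases h3 : ∀ t ∈ B, ∀ e, t e = s₀ f ∨ t e = s₀ (!f) ∨ t e = t₁ e₁
  · exact Or.inl ⟨_, _, _, h3⟩
  push Not at h3
  obtain ⟨t₂, ht₂, e₂, hd1, hd2, hd3⟩ := h3
  have hd : ∀ g, t₂ e₂ ≠ s₀ g := by
    intro g
    by_cases hg : g = f
    · rw [hg]; exact hd1
    · rw [hbool g f hg]; exact hd2
  have hu : t₂ (!e₂) = s₀ f := by
    obtain ⟨e, e', hee⟩ := h1 t₂ ht₂ s₀ hs₀
    have he : e ≠ e₂ := by
      rintro rfl; exact hd e' hee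
    rw [hbool e e₂ he] at hee
    by_cases he' : e' = f
    · rw [hee, he']
    · rw [hbool e' f he'] at hee
      obtain ⟨α, β, hαβ⟩ := h1 t₂ ht₂ t₁ ht₁
      have hα : α ≠ e₂ := by
        rintro rfl
        by_cases hβ : β = e₁
        · rw [hβ] at hαβ; exact hd3 hαβ
        · rw [hbool β e₁ hβ, hf] at hαβ; exact hd1 hαβ
      rw [hbool α e₂ hα] at hαβ
      by_cases hβ : β = e₁
      · rw [hβ, hee] at hαβ
        exact absurd hαβ.symm (hc _)
      · rw [hbool β e₁ hβ, hf] at hαβ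
        exact hαβ
  refine Or.inr ⟨s₀ f, t₁ e₁, t₂ e₂, fun h => hd3 h.symm, ?_, ⟨t₁, ht₁, ?_⟩, ⟨t₂, ht₂, ?_⟩⟩
  · intro t ht
    by_contra hcon
    push Not at hcon
    obtain ⟨α, α', hα⟩ := h1 t ht s₀ hs₀
    obtain ⟨β, β', hβ⟩ := h1 t ht t₁ ht₁
    obtain ⟨γ, γ', hγ⟩ := h1 t ht t₂ ht₂
    have hα' : α' ≠ f := by
      rintro rfl; exact hcon α hα
    rw [hbool α' f hα'] at hα
    have hβ' : β' = e₁ := by
      by_contra h
      rw [hbool β' e₁ h, hf] at hβ
      exact hcon β hβ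
    rw [hβ'] at hβ
    have hγ' : γ' = e₂ := by
      by_contra h
      rw [hbool γ' e₂ h, hu] at hγ
      exact hcon γ hγ
    rw [hγ'] at hγ
    have h5 : α ≠ β := by
      rintro rfl; exact hc _ (hβ.symm.trans hα)
    have h6 : α ≠ γ := by
      rintro rfl; exact hd _ (hγ.symm.trans hα)
    have h7 : β ≠ γ := by
      rintro rfl; exact hd3 (hγ.symm.trans hβ)
    revert h5 h6 h7
    cases α <;> cases β <;> cases γ <;> simp
  · intro e
    by_cases he : e = e₁
    · exact Or.inr (by rw [he])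
    · exact Or.inl (by rw [hbool e e₁ he, hf])
  · intro e
    by_cases he : e = e₂
    · exact Or.inr (by rw [he])
    · exact Or.inl (by rw [hbool e e₂ he, hu])

/-! ### Six cells -/

/-- the neighbour `y ± 1` in `Z/3` -/
def nv (y : Fin 3) (e : Bool) : Fin 3 := if e then y + 1 else y + 2

/-- the cell weight -/
noncomputable def cw (κ η u w z : ℝ) : ℝ := if 0 < u then Real.exp (-((κ * w + η * z) / u)) else 0

lemma cw_nonneg (κ η u w z : ℝ) : 0 ≤ cw κ η u w z := by
  unfold cw; split_ifs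
  · exact (Real.exp_pos _).le
  · exact le_rfl

lemma cw_le_one {κ η u w z : ℝ} (hκ : 0 ≤ κ) (hη : 0 ≤ η) (hw : 0 ≤ w) (hz : 0 ≤ z) :
    cw κ η u w z ≤ 1 := by
  unfold cw; split_ifs with h
  · rw [← Real.exp_zero]
    apply Real.exp_le_exp.2
    have : 0 ≤ (κ * w + η * z) / u := by positivity
    linarith
  · exact zero_le_one

lemma cw_le_of_le {κ η u w z r τ : ℝ} (hu : 0 ≤ u)
    (h : r * u ≤ κ * w + η * z) (hr : Real.exp (-r) ≤ τ) :
    cw κ η u w z ≤ τ := by
  unfold cw; split_ifs with h'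
  · refine le_trans (Real.exp_le_exp.2 ?_) hr
    have : r ≤ (κ * w + η * z) / u := by
      rw [le_div_iff₀ h']; exact h
    linarith
  · exact (Real.exp_pos _).le.trans hr

lemma cw_sorted {κ η τ r u v w : ℝ} (hκ : 0 ≤ κ) (hη : 0 ≤ η) (hτ : Real.exp (-κ) ≤ τ)
    (hτr : Real.exp (-r) ≤ τ) (hr : r ^ 2 ≤ κ * η) (hr0 : 0 ≤ r)
    (hw : 0 ≤ w) (hvw : w ≤ v) (huv : v ≤ u) :
    cw κ η u v w + cw κ η u w v + cw κ η v u w + cw κ η v w u + cw κ η w u v + cw κ η w v u
      ≤ 2 + 4 * τ := by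
  have hv : 0 ≤ v := hw.trans hvw
  have hu : 0 ≤ u := hv.trans huv
  have h1 : cw κ η u w v ≤ 1 := cw_le_one hκ hη hw hv
  have h2 : cw κ η v u w ≤ τ := cw_le_of_le hv (by nlinarith [mul_nonneg hη hw]) hτ
  have h3 : cw κ η w u v ≤ τ := cw_le_of_le hw (by nlinarith [mul_nonneg hη hv]) hτ
  have h4 : cw κ η w v u ≤ τ := cw_le_of_le hw (by nlinarith [mul_nonneg hη hu]) hτ
  have h5 : cw κ η u v w + cw κ η v w u ≤ 1 + τ := by
    rcases le_total (r * u) (κ * v) with h | h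
    · have e1 : cw κ η u v w ≤ τ := cw_le_of_le hu (by nlinarith [mul_nonneg hη hw]) hτr
      have e2 : cw κ η v w u ≤ 1 := cw_le_one hκ hη hw hu
      linarith
    · have e1 : cw κ η u v w ≤ 1 := cw_le_one hκ hη hv hw
      have e2 : cw κ η v w u ≤ τ := by
        rcases hv.eq_or_lt with hv0 | hv0
        · have : cw κ η v w u = 0 := by
            unfold cw; rw [if_neg]; rw [← hv0]; exact lt_irrefl _
          rw [this]; exact (Real.exp_pos _).le.trans hτr
        refine cw_le_of_le hv ?_ hτr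
        -- `κ v ≤ r u`, `r² ≤ κ η`; hence `r v ≤ η u`
        have h6 : r * v ≤ η * u := by
          rcases hr0.eq_or_lt with h0 | h0
          · rw [← h0]; nlinarith [mul_nonneg hη hu]
          · have hκ0 : 0 < κ := by
              rcases hκ.eq_or_lt with hk | hk
              · rw [← hk] at hr; nlinarith [sq_nonneg r, mul_pos h0 h0]
              · exact hk
            have h7 : κ * (r * v) ≤ κ * (η * u) := by
              have := mul_le_mul_of_nonneg_left h h0.le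
              nlinarith [mul_le_mul_of_nonneg_right hr hu]
            exact le_of_mul_le_mul_left h7 hκ0
        nlinarith [mul_nonneg hκ hw]
      linarith
  linarith

lemma cw_cells {κ η τ r : ℝ} (hκ : 0 ≤ κ) (hη : 0 ≤ η) (hτ : Real.exp (-κ) ≤ τ)
    (hτr : Real.exp (-r) ≤ τ) (hr : r ^ 2 ≤ κ * η) (hr0 : 0 ≤ r) (B : Fin 3 → ℝ)
    (hB : ∀ x, 0 ≤ B x) :
    mn (fun c : Fin 3 × Bool => cw κ η (B (nv c.1 c.2)) (B (nv c.1 (!c.2))) (B c.1)) ≤
      (2 + 4 * τ) / 6 := by
  have hs := @cw_sorted κ η τ r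
  have key : cw κ η (B 1) (B 2) (B 0) + cw κ η (B 2) (B 1) (B 0) +
      (cw κ η (B 2) (B 0) (B 1) + cw κ η (B 0) (B 2) (B 1)) +
      (cw κ η (B 0) (B 1) (B 2) + cw κ η (B 1) (B 0) (B 2)) ≤ 2 + 4 * τ := by
    rcases le_total (B 0) (B 1) with h01 | h01 <;> rcases le_total (B 1) (B 2) with h12 | h12 <;>
      rcases le_total (B 0) (B 2) with h02 | h02
    · linarith [hs hκ hη hτ hτr hr hr0 (hB 0) h01 h12]
    · linarith [hs hκ hη hτ hτr hr hr0 (hB 0) h01 h12]
    · linarith [hs hκ hη hτ hτr hr hr0 (hB 0) h02 h12]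
    · linarith [hs hκ hη hτ hτr hr hr0 (hB 2) h02 h01]
    · linarith [hs hκ hη hτ hτr hr hr0 (hB 1) h01 h02]
    · linarith [hs hκ hη hτ hτr hr hr0 (hB 1) h12 h02]
    · linarith [hs hκ hη hτ hτr hr hr0 (hB 2) h12 h01]
    · linarith [hs hκ hη hτ hτr hr hr0 (hB 2) h12 h01]
  unfold mn
  rw [Fintype.sum_prod_type, Fin.sum_univ_three]
  simp only [Fintype.sum_bool, Fintype.card_prod, Fintype.card_fin, Fintype.card_bool]
  have e1 : nv 0 true = 1 := by decide
  have e2 : nv 0 false = 2 := by decide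
  have e3 : nv 1 true = 2 := by decide
  have e4 : nv 1 false = 0 := by decide
  have e5 : nv 2 true = 0 := by decide
  have e6 : nv 2 false = 1 := by decide
  simp only [Bool.not_true, Bool.not_false, e1, e2, e3, e4, e5, e6]
  norm_num
  linarith

section cell
variable {P Q : Type*} [Fintype P] [Fintype Q] [DecidableEq P] [DecidableEq Q]
  [Nonempty P] [Nonempty Q]

/-- truncated mass: the mean if the relative entropy is at most `C`, and `0` otherwise -/
noncomputable def tm (C : ℝ) (a : (P → Q) → ℝ) : ℝ :=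
  open Classical in if ent a ≤ C * mn a then mn a else 0

omit [DecidableEq Q] [Nonempty P] [Nonempty Q] in
lemma tm_nonneg (C : ℝ) {a : (P → Q) → ℝ} (ha : ∀ S, 0 ≤ a S) : 0 ≤ tm C a := by
  unfold tm; split_ifs
  · exact mn_nonneg ha
  · exact le_rfl

omit [DecidableEq Q] [Nonempty P] [Nonempty Q] in
lemma tm_le (C : ℝ) {a : (P → Q) → ℝ} (ha : ∀ S, 0 ≤ a S) : tm C a ≤ mn a := by
  unfold tm; split_ifs
  · exact le_rfl
  · exact mn_nonneg ha

omit [Nonempty P] [Nonempty Q] in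
lemma cell_ineq (j₀ : P) {K C ε η : ℝ} (hK : 0 ≤ K) (hη : 0 ≤ η) (hε1 : ε ≤ 1) (hε0 : 0 ≤ ε)
    (hgen : ∀ (a : (P → Q) → ℝ) (b : P × Q → ℝ), (∀ S, 0 ≤ a S) → (∀ t, 0 ≤ b t) →
      ent a ≤ C * mn a → ent b ≤ C * mn b → (1 - ε) * (mn a * mn b) ≤ G j₀ a b)
    (A A' A'' : (P → Q) → ℝ) (b : P × Q → ℝ) (hA : ∀ S, 0 ≤ A S) (hA' : ∀ S, 0 ≤ A' S)
    (hA'' : ∀ S, 0 ≤ A'' S) (hb : ∀ t, 0 ≤ b t) :
    (mn A * mn b) * (-Real.log (cw (K * (1 - ε)) η (tm C A) (tm C A') (tm C A'')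
        + Real.exp (-(C - K)))) - K * ε * (mn A * mn b) ≤
      mn b * ent A + mn A * ent b + K * (G j₀ A b + G j₀ A' b) + η * (mn A'' * mn b)
        - K * (mn A * mn b) := by
  set W := cw (K * (1 - ε)) η (tm C A) (tm C A') (tm C A'') with hW
  have hW0 : 0 ≤ W := cw_nonneg _ _ _ _ _
  have hexp := Real.exp_pos (-(C - K))
  have hmA := mn_nonneg hA
  have hmA'' := mn_nonneg hA''
  have hmb := mn_nonneg hb
  have hG := G_nonneg j₀ hA hb
  have hG' := G_nonneg j₀ hA' hb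
  have heA := ent_nonneg A hA
  have heb := ent_nonneg b hb
  have hc : 0 ≤ mn A * mn b := mul_nonneg hmA hmb
  have hc'' : 0 ≤ η * (mn A'' * mn b) := by positivity
  have hlogT : -Real.log (W + Real.exp (-(C - K))) ≤ C - K := by
    have h1 : Real.log (Real.exp (-(C - K))) ≤ Real.log (W + Real.exp (-(C - K))) :=
      Real.log_le_log hexp (by linarith)
    rw [Real.log_exp] at h1
    linarith
  have hKεc : 0 ≤ K * ε * (mn A * mn b) := by positivity
  have hKG : 0 ≤ K * (G j₀ A b + G j₀ A' b) := by positivity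
  by_cases h1 : ent A ≤ C * mn A
  swap
  · -- expensive `A`
    push Not at h1
    have h2 := mul_le_mul_of_nonneg_left hlogT hc
    have h3 := mul_le_mul_of_nonneg_left h1.le hmb
    have h4 := mul_nonneg hmA heb
    nlinarith
  by_cases h2 : ent b ≤ C * mn b
  swap
  · push Not at h2
    have h3 := mul_le_mul_of_nonneg_left hlogT hc
    have h4 := mul_le_mul_of_nonneg_left h2.le hmA
    have h5 := mul_nonneg hmb heA
    nlinarith
  rcases hmA.eq_or_lt with h0 | hpos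
  · -- `mn A = 0`
    rw [← h0]
    have h5 := mul_nonneg hmb heA
    simp only [zero_mul]
    linarith
  have htA : tm C A = mn A := by
    unfold tm; rw [if_pos h1]
  have hg1 := hgen A b hA hb h1 h2
  have hg2 : (1 - ε) * (tm C A' * mn b) ≤ G j₀ A' b := by
    by_cases h3 : ent A' ≤ C * mn A'
    · have : tm C A' = mn A' := by unfold tm; rw [if_pos h3]
      rw [this]
      exact hgen A' b hA' hb h3 h2
    · have : tm C A' = 0 := by unfold tm; rw [if_neg h3]
      rw [this]; simpa using hG'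
  have hWval : W = Real.exp (-((K * (1 - ε) * tm C A' + η * tm C A'') / mn A)) := by
    rw [hW]; unfold cw; rw [htA, if_pos hpos]
  have hlog : -Real.log (W + Real.exp (-(C - K))) ≤
      (K * (1 - ε) * tm C A' + η * tm C A'') / mn A := by
    have h3 : Real.log W ≤ Real.log (W + Real.exp (-(C - K))) :=
      Real.log_le_log (by rw [hWval]; exact Real.exp_pos _) (by linarith)
    rw [hWval, Real.log_exp] at h3
    rw [hWval]
    linarith
  have h3 := mul_le_mul_of_nonneg_left hlog hc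
  have h4 : (mn A * mn b) * ((K * (1 - ε) * tm C A' + η * tm C A'') / mn A) =
      mn b * (K * (1 - ε) * tm C A' + η * tm C A'') := by
    field_simp
  rw [h4] at h3
  have h5 := mul_nonneg hmb heA
  have h6 := mul_nonneg hmA heb
  have h7 : η * (mn b * tm C A'') ≤ η * (mn A'' * mn b) := by
    have := mul_le_mul_of_nonneg_right (tm_le C hA'') hmb
    have := mul_le_mul_of_nonneg_left this hη
    nlinarith
  have h8 := mul_le_mul_of_nonneg_left hg1 hK
  have h9 := mul_le_mul_of_nonneg_left hg2 hK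
  nlinarith

end cell

end H644R2
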