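import Mathlib

/-!
Uniform means and the entropy functional `Ent(f) = E[f log f] - E[f] log E[f]` on a finite type.
-/

open Finset

namespace H644R2

/-- Uniform mean of a real function on a finite type. -/
noncomputable def mn {α : Type*} [Fintype α] (f : α → ℝ) : ℝ := (∑ a, f a) / Fintype.card α

section mean
variable {α β : Type*} [Fintype α] [Fintype β]

lemma mn_add (f g : α → ℝ) : mn (fun a => f a + g a) = mn f + mn g := by
  simp only [mn, sum_add_distrib, add_div]

lemma mn_sub (f g : α → ℝ) : mn (fun a => f a - g a) = mn f - mn g := by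
  simp only [mn, sum_sub_distrib, sub_div]

lemma mn_neg (f : α → ℝ) : mn (fun a => - f a) = - mn f := by
  simp only [mn, sum_neg_distrib, neg_div]

lemma mn_mul_left (c : ℝ) (f : α → ℝ) : mn (fun a => c * f a) = c * mn f := by
  simp only [mn, ← mul_sum, mul_div_assoc]

lemma mn_mul_right (f : α → ℝ) (c : ℝ) : mn (fun a => f a * c) = mn f * c := by
  simp only [mn, ← sum_mul]; ring

lemma mn_const [Nonempty α] (c : ℝ) : mn (fun _ : α => c) = c := by
  have : (Fintype.card α : ℝ) ≠ 0 := by
    exact_mod_cast Fintype.card_ne_zero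
  simp only [mn, sum_const, card_univ, nsmul_eq_mul]
  field_simp

lemma mn_nonneg {f : α → ℝ} (h : ∀ a, 0 ≤ f a) : 0 ≤ mn f :=
  div_nonneg (sum_nonneg fun a _ => h a) (by positivity)

lemma mn_mono {f g : α → ℝ} (h : ∀ a, f a ≤ g a) : mn f ≤ mn g :=
  div_le_div_of_nonneg_right (sum_le_sum fun a _ => h a) (by positivity)

lemma mn_congr {f g : α → ℝ} (h : ∀ a, f a = g a) : mn f = mn g := by
  rw [show f = g from funext h]

lemma mn_prod (f : α × β → ℝ) : mn f = mn (fun a => mn (fun b => f (a, b))) := by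
  simp only [mn, Fintype.sum_prod_type, Fintype.card_prod, Nat.cast_mul, ← sum_div]
  rw [div_div, mul_comm]

lemma mn_comm (f : α → β → ℝ) :
    mn (fun a => mn (fun b => f a b)) = mn (fun b => mn (fun a => f a b)) := by
  simp only [mn, ← sum_div]
  rw [sum_comm, div_div, div_div, mul_comm]

lemma mn_equiv (e : α ≃ β) (f : β → ℝ) : mn (fun a => f (e a)) = mn f := by
  simp only [mn]
  rw [Equiv.sum_comp e f, Fintype.card_congr e]

lemma eq_zero_of_mn_eq_zero {f : α → ℝ} (h : ∀ a, 0 ≤ f a) (h0 : mn f = 0) (a : α) : f a = 0 := by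
  haveI : Nonempty α := ⟨a⟩
  have hc : (Fintype.card α : ℝ) ≠ 0 := by
    exact_mod_cast Fintype.card_ne_zero
  have h1 : ∑ a, f a = 0 := by
    simp only [mn] at h0
    rcases div_eq_zero_iff.1 h0 with h2 | h2
    · exact h2
    · exact absurd h2 hc
  exact (sum_eq_zero_iff_of_nonneg (fun a _ => h a)).1 h1 a (mem_univ a)

lemma mn_pos_of {f : α → ℝ} (h : ∀ a, 0 ≤ f a) {a : α} (ha : 0 < f a) : 0 < mn f := by
  rcases (mn_nonneg h).lt_or_eq with h1 | h1
  · exact h1
  · exact absurd (eq_zero_of_mn_eq_zero h h1.symm a) ha.ne'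

/-- mean of a function supported at one point -/
lemma mn_single [DecidableEq α] (a₀ : α) (f : α → ℝ) :
    mn (fun a => if a = a₀ then f a else 0) = f a₀ / Fintype.card α := by
  simp [mn]

end mean

section ent
variable {α : Type*} [Fintype α]

/-- `Ent(f) = E[f log f] - E[f] log E[f]`. -/
noncomputable def ent (f : α → ℝ) : ℝ :=
  mn (fun a => f a * Real.log (f a)) - mn f * Real.log (mn f)

/-- pointwise inequality behind Gibbs -/
lemma gibbs_pt {g w m Z : ℝ} (hg : 0 ≤ g) (hw : 0 ≤ w) (hm : 0 < m) (hZ : 0 < Z)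
    (h0 : w = 0 → g = 0) :
    g - (m / Z) * w ≤ g * Real.log g - g * Real.log m - (g * Real.log w - g * Real.log Z) := by
  rcases hg.eq_or_lt with h | h
  · rw [← h]
    have : 0 ≤ (m / Z) * w := by positivity
    simp only [zero_mul, sub_zero]
    linarith
  · have hw' : 0 < w := lt_of_le_of_ne hw (fun h' => h.ne' (h0 h'.symm))
    have h1 := Real.one_sub_inv_le_log_of_pos (x := g * Z / (m * w)) (by positivity)
    have h2 : Real.log (g * Z / (m * w)) =
        Real.log g + Real.log Z - (Real.log m + Real.log w) := by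
      rw [Real.log_div (by positivity) (by positivity), Real.log_mul h.ne' hZ.ne',
        Real.log_mul hm.ne' hw'.ne']
    have h3 : (g * Z / (m * w))⁻¹ = m * w / (g * Z) := by
      rw [inv_div]
    rw [h2, h3] at h1
    have h4 := mul_le_mul_of_nonneg_left h1 h.le
    have h5 : g * (1 - m * w / (g * Z)) = g - (m / Z) * w := by
      field_simp
    rw [h5] at h4
    linarith

/-- Gibbs' variational principle (Donsker-Varadhan). -/
lemma gibbs (g w : α → ℝ) (hg : ∀ a, 0 ≤ g a) (hw : ∀ a, 0 ≤ w a)
    (h0 : ∀ a, w a = 0 → g a = 0) :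
    mn (fun a => g a * Real.log (w a)) - mn g * Real.log (mn w) ≤ ent g := by
  rcases (mn_nonneg hg).lt_or_eq with hm | hm
  · have hZ : 0 < mn w := by
      by_contra hcon
      have hz : mn w = 0 := le_antisymm (not_lt.1 hcon) (mn_nonneg hw)
      have : ∀ a, g a = 0 := fun a => h0 a (eq_zero_of_mn_eq_zero hw hz a)
      have : mn g = 0 := by
        have h1 : mn g = mn (fun _ : α => (0 : ℝ)) := mn_congr this
        rw [h1]; simp [mn]
      exact hm.ne' this
    have key := mn_mono (fun a => gibbs_pt (hg a) (hw a) hm hZ (h0 a))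
    rw [mn_sub, mn_mul_left, mn_sub, mn_sub, mn_sub, mn_mul_right, mn_mul_right] at key
    have : (mn g / mn w) * mn w = mn g := by field_simp
    unfold ent
    linarith
  · have h1 : ∀ a, g a = 0 := eq_zero_of_mn_eq_zero hg hm.symm
    have h2 : g = fun _ => 0 := funext h1
    subst h2
    simp [ent, mn]

lemma ent_nonneg (g : α → ℝ) (hg : ∀ a, 0 ≤ g a) : 0 ≤ ent g := by
  rcases isEmpty_or_nonempty α with h | h
  · simp [ent, mn]
  have := gibbs g (fun _ => 1) hg (fun _ => zero_le_one) (fun _ h => absurd h one_ne_zero)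
  simpa [mn_const] using this

/-- exponential form -/
lemma gibbs_exp (g φ : α → ℝ) (hg : ∀ a, 0 ≤ g a) :
    mn (fun a => g a * φ a) - mn g * Real.log (mn (fun a => Real.exp (φ a))) ≤ ent g := by
  have := gibbs g (fun a => Real.exp (φ a)) hg (fun a => (Real.exp_pos _).le)
    (fun a h => absurd h (Real.exp_pos _).ne')
  simpa using this

/-- small support forces large entropy -/
lemma ent_ge_of_supp (g : α → ℝ) (hg : ∀ a, 0 ≤ g a) (s : α → Prop) [DecidablePred s]
    (hs : ∀ a, g a ≠ 0 → s a) {p : ℝ} (hp : 0 < p)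
    (hps : mn (fun a => if s a then (1 : ℝ) else 0) ≤ p) :
    mn g * Real.log (1 / p) ≤ ent g := by
  have h1 := gibbs g (fun a => if s a then (1 : ℝ) else 0) hg
    (fun a => by split_ifs <;> norm_num)
    (fun a h => by
      by_contra hne
      simp [hs a hne] at h)
  have h2 : mn (fun a => g a * Real.log (if s a then (1 : ℝ) else 0)) = 0 := by
    have : ∀ a, g a * Real.log (if s a then (1 : ℝ) else 0) = 0 := by
      intro a; split_ifs <;> simp
    rw [mn_congr this]; simp [mn]
  rw [h2] at h1
  rcases (mn_nonneg hg).lt_or_eq with hm | hm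
  · have hpos : 0 < mn (fun a => if s a then (1 : ℝ) else 0) := by
      obtain ⟨a, ha⟩ : ∃ a, 0 < g a := by
        by_contra hcon
        push Not at hcon
        have : mn g ≤ mn (fun _ : α => (0 : ℝ)) := mn_mono hcon
        have h3 : mn (fun _ : α => (0 : ℝ)) = 0 := by simp [mn]
        linarith
      refine mn_pos_of (a := a) (fun a => by split_ifs <;> norm_num) ?_
      simp [hs a ha.ne']
    have h4 : Real.log (mn (fun a => if s a then (1 : ℝ) else 0)) ≤ Real.log p :=
      Real.log_le_log hpos hps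
    have h5 := mul_le_mul_of_nonneg_left h4 hm.le
    rw [one_div, Real.log_inv]
    linarith
  · rw [← hm]
    simpa using ent_nonneg g hg

/-- splitting a function into two parts with disjoint supports -/
lemma ent_split (g g₁ g₂ : α → ℝ) (hg₁ : ∀ a, 0 ≤ g₁ a) (hg₂ : ∀ a, 0 ≤ g₂ a)
    (hsum : ∀ a, g a = g₁ a + g₂ a) (hdisj : ∀ a, g₁ a = 0 ∨ g₂ a = 0)
    {δ : ℝ} (hδ : 0 < δ) :
    ent g₁ + ent g₂ - mn g * Real.log (1 + δ) - mn g₂ * Real.log (1 / δ) ≤ ent g := by
  have hm : mn g = mn g₁ + mn g₂ := by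
    rw [mn_congr hsum, mn_add]
  have hL : mn (fun a => g a * Real.log (g a)) =
      mn (fun a => g₁ a * Real.log (g₁ a)) + mn (fun a => g₂ a * Real.log (g₂ a)) := by
    rw [← mn_add]
    refine mn_congr fun a => ?_
    rw [hsum a]
    rcases hdisj a with h | h <;> simp [h]
  have key : ∀ {x y : ℝ}, 0 ≤ x → 0 ≤ y →
      (x + y) * Real.log (x + y) ≤
      x * Real.log x + y * Real.log y + (x + y) * Real.log (1 + δ) + y * Real.log (1 / δ) := by
    intro x y hx hy
    rcases (add_nonneg hx hy).eq_or_lt with h | h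
    · have hx0 : x = 0 := by linarith
      have hy0 : y = 0 := by linarith
      simp [hx0, hy0]
    · have e1 := gibbs_pt (g := x) (w := 1) (m := x + y) (Z := 1 + δ) hx zero_le_one h
        (by linarith) (fun h => absurd h one_ne_zero)
      have e2 := gibbs_pt (g := y) (w := δ) (m := x + y) (Z := 1 + δ) hy hδ.le h
        (by linarith) (fun h => absurd h hδ.ne')
      have e3 : (x + y) / (1 + δ) * 1 + (x + y) / (1 + δ) * δ = x + y := by
        have : (1 + δ) ≠ 0 := by linarith
        field_simp
      rw [Real.log_one] at e1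
      rw [one_div, Real.log_inv]
      nlinarith [e1, e2, e3]
  have := key (mn_nonneg hg₁) (mn_nonneg hg₂)
  unfold ent
  rw [hL, hm]
  linarith

end ent

end H644R2
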