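import Pool.Agent.H644R2.Ent

/-!
Genericity: if `a` on `P → Q` and `b` on `P × Q` have small relative entropy, then
`E_S (1/|P|) ∑_{k ≠ j₀} a(S) b(k, S k)` is almost `E[a] E[b]`.
-/

open Finset

namespace H644R2

variable {P Q : Type*} [Fintype P] [Fintype Q] [DecidableEq P] [DecidableEq Q]

/-- The involution `(S, q) ↦ (update S j q, S j)`. -/
def swapEquiv (j : P) : ((P → Q) × Q) ≃ ((P → Q) × Q) where
  toFun z := (Function.update z.1 j z.2, z.1 j)
  invFun z := (Function.update z.1 j z.2, z.1 j)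
  left_inv z := by
    rcases z with ⟨S, q⟩
    simp
  right_inv z := by
    rcases z with ⟨S, q⟩
    simp

lemma mn_update [Nonempty Q] (j : P) (H : (P → Q) → ℝ) :
    mn (fun S => mn (fun q => H (Function.update S j q))) = mn H := by
  have h1 := mn_equiv (swapEquiv (Q := Q) j) (fun z : (P → Q) × Q => H z.1)
  rw [mn_prod, mn_prod] at h1
  simp only [swapEquiv, Equiv.coe_fn_mk, mn_const] at h1
  exact h1

/-- Conditioning on `S j₀ = p₀`. -/
lemma mn_ind_update [Nonempty Q] (j₀ : P) (p₀ : Q) (H : (P → Q) → ℝ) :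
    mn (fun S => if S j₀ = p₀ then H S else 0) =
      mn (fun S => H (Function.update S j₀ p₀)) / Fintype.card Q := by
  rw [← mn_update j₀]
  simp only [Function.update_self]
  have : ∀ S : P → Q, mn (fun q => if q = p₀ then H (Function.update S j₀ q) else 0) =
      H (Function.update S j₀ p₀) * (Fintype.card Q : ℝ)⁻¹ := by
    intro S
    rw [mn_single p₀ (fun q => H (Function.update S j₀ q)), div_eq_mul_inv]
  rw [mn_congr this, mn_mul_right, div_eq_mul_inv]

/-- the product formula -/
lemma mn_pi_prod (h : P → Q → ℝ) :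
    mn (fun S : P → Q => ∏ k, h k (S k)) = ∏ k, mn (h k) := by
  simp only [mn]
  rw [← Fintype.prod_sum, Fintype.card_fun, Finset.prod_div_distrib]
  simp

/-- the (scaled) one-coordinate marginals of `a` -/
noncomputable def marg (a : (P → Q) → ℝ) (k : P) (q : Q) : ℝ :=
  Fintype.card Q * mn (fun S => if S k = q then a S else 0)

lemma marg_nonneg {a : (P → Q) → ℝ} (ha : ∀ S, 0 ≤ a S) (k : P) (q : Q) : 0 ≤ marg a k q :=
  mul_nonneg (by positivity) (mn_nonneg fun S => by split_ifs <;> simp [ha S])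

lemma mn_mul_marg [Nonempty Q] (a : (P → Q) → ℝ) (k : P) (h : Q → ℝ) :
    mn (fun S => a S * h (S k)) = mn (fun q => marg a k q * h q) := by
  have hc : (Fintype.card Q : ℝ) ≠ 0 := by
    exact_mod_cast Fintype.card_ne_zero
  have h1 : ∀ S : P → Q, a S * h (S k) =
      Fintype.card Q * mn (fun q => (if S k = q then a S else 0) * h q) := by
    intro S
    simp only [mn, ite_mul, zero_mul, sum_ite_eq, mem_univ, if_true]
    field_simp
  rw [mn_congr h1, mn_mul_left, mn_comm, ← mn_mul_left]
  refine mn_congr fun q => ?_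
  rw [mn_mul_right, marg]
  ring

lemma exp_neg_le_quad {ε : ℝ} (hε : 0 ≤ ε) : Real.exp (-ε) ≤ 1 - ε + ε ^ 2 / 2 := by
  have h1 := Real.quadratic_le_exp_of_nonneg hε
  have h2 : 0 < 1 + ε + ε ^ 2 / 2 := by positivity
  rw [Real.exp_neg]
  calc (Real.exp ε)⁻¹ ≤ (1 + ε + ε ^ 2 / 2)⁻¹ := inv_anti₀ h2 h1
    _ ≤ 1 - ε + ε ^ 2 / 2 := by
      rw [inv_le_iff_one_le_mul₀ h2]
      nlinarith [sq_nonneg (ε ^ 2)]

/-- Few one-coordinate marginals are small. -/
lemma sum_bad_le [Nonempty Q] (a : (P → Q) → ℝ) (ha : ∀ S, 0 ≤ a S) (hm : 0 < mn a)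
    {C ε : ℝ} (hε : 0 < ε) (hε1 : ε ≤ 1) (hC : ent a ≤ C * mn a) :
    ∑ k, mn (fun q => if marg a k q < (1 - ε) * mn a then (1 : ℝ) else 0) ≤ 2 * C / ε ^ 2 := by
  classical
  set B : P → Q → ℝ := fun k q => if marg a k q < (1 - ε) * mn a then (1 : ℝ) else 0 with hB
  set w : P → ℝ := fun k => mn (B k) with hw
  have hB01 : ∀ k q, B k q = 0 ∨ B k q = 1 := by
    intro k q; simp only [hB]; split_ifs <;> simp
  have hw0 : ∀ k, 0 ≤ w k := fun k => mn_nonneg fun q => by
    rcases hB01 k q with h | h <;> rw [h]; norm_num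
  have key := gibbs_exp a (fun S => ∑ k, (-ε) * B k (S k)) ha
  -- first term
  have h1 : -ε * ((1 - ε) * mn a) * ∑ k, w k ≤ mn (fun S => a S * ∑ k, (-ε) * B k (S k)) := by
    have e1 : mn (fun S => a S * ∑ k, (-ε) * B k (S k)) =
        ∑ k, (-ε) * mn (fun q => marg a k q * B k q) := by
      have e2 : ∀ S : P → Q, a S * ∑ k, (-ε) * B k (S k) = ∑ k, (-ε) * (a S * B k (S k)) := by
        intro S
        rw [mul_sum]
        refine sum_congr rfl fun k _ => ?_
        ring
      rw [mn_congr e2]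
      have e3 : mn (fun S => ∑ k, (-ε) * (a S * B k (S k))) =
          ∑ k, mn (fun S => (-ε) * (a S * B k (S k))) := by
        simp only [mn]
        rw [sum_comm, sum_div]
      rw [e3]
      refine sum_congr rfl fun k _ => ?_
      rw [mn_mul_left, mn_mul_marg a k (B k)]
    rw [e1, mul_sum]
    refine sum_le_sum fun k _ => ?_
    have e4 : mn (fun q => marg a k q * B k q) ≤ ((1 - ε) * mn a) * w k := by
      rw [hw, ← mn_mul_left]
      refine mn_mono fun q => ?_
      simp only [hB]
      split_ifs with hlt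
      · simpa using hlt.le
      · simp
    nlinarith [e4]
  -- second term
  have h2 : Real.log (mn (fun S : P → Q => Real.exp (∑ k, (-ε) * B k (S k)))) ≤
      -((ε - ε ^ 2 / 2) * ∑ k, w k) := by
    have e1 : mn (fun S : P → Q => Real.exp (∑ k, (-ε) * B k (S k))) =
        ∏ k, mn (fun q => Real.exp ((-ε) * B k q)) := by
      rw [← mn_pi_prod (fun k q => Real.exp ((-ε) * B k q))]
      refine mn_congr fun S => ?_
      rw [Real.exp_sum]
    have e2 : ∀ k, mn (fun q => Real.exp ((-ε) * B k q)) ≤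
        Real.exp (-((ε - ε ^ 2 / 2) * w k)) := by
      intro k
      have e3 : mn (fun q => Real.exp ((-ε) * B k q)) ≤ 1 - (ε - ε ^ 2 / 2) * w k := by
        have e4 : ∀ q, Real.exp ((-ε) * B k q) ≤ 1 - (ε - ε ^ 2 / 2) * B k q := by
          intro q
          rcases hB01 k q with h | h
          · rw [h]; simp
          · rw [h, mul_one, mul_one]
            have := exp_neg_le_quad hε.le
            linarith
        have e5 := mn_mono e4
        rw [mn_sub, mn_const, mn_mul_left] at e5
        exact e5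
      refine e3.trans ?_
      have := Real.add_one_le_exp (-((ε - ε ^ 2 / 2) * w k))
      linarith
    have e6 : mn (fun S : P → Q => Real.exp (∑ k, (-ε) * B k (S k))) ≤
        Real.exp (-((ε - ε ^ 2 / 2) * ∑ k, w k)) := by
      rw [e1, mul_sum, ← sum_neg_distrib, Real.exp_sum]
      refine prod_le_prod (fun k _ => mn_nonneg fun q => (Real.exp_pos _).le) fun k _ => e2 k
    have e7 : 0 < mn (fun S : P → Q => Real.exp (∑ k, (-ε) * B k (S k))) := by
      rw [e1]
      refine prod_pos fun k _ => ?_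
      refine mn_pos_of (a := Classical.arbitrary Q) (fun q => (Real.exp_pos _).le)
        (Real.exp_pos _)
    calc _ ≤ Real.log (Real.exp (-((ε - ε ^ 2 / 2) * ∑ k, w k))) := Real.log_le_log e7 e6
      _ = _ := Real.log_exp _
  have h3 := mul_le_mul_of_nonneg_left h2 hm.le
  have h4 : mn a * (ε ^ 2 / 2 * ∑ k, w k) ≤ mn a * C := by nlinarith [h1, h3, key, hC]
  have h5 : ε ^ 2 / 2 * ∑ k, w k ≤ C := le_of_mul_le_mul_left h4 hm
  rw [le_div_iff₀ (by positivity)]
  linarith

/-- the functional `G` -/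
noncomputable def G (j₀ : P) (a : (P → Q) → ℝ) (b : P × Q → ℝ) : ℝ :=
  (∑ k, if k = j₀ then 0 else mn (fun S => a S * b (k, S k))) / Fintype.card P

lemma G_nonneg (j₀ : P) {a : (P → Q) → ℝ} {b : P × Q → ℝ} (ha : ∀ S, 0 ≤ a S)
    (hb : ∀ t, 0 ≤ b t) : 0 ≤ G j₀ a b := by
  refine div_nonneg (sum_nonneg fun k _ => ?_) (by positivity)
  split_ifs
  · exact le_rfl
  · exact mn_nonneg fun S => mul_nonneg (ha S) (hb _)

theorem generic [Nonempty P] [Nonempty Q] (j₀ : P) (a : (P → Q) → ℝ) (b : P × Q → ℝ)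
    (ha : ∀ S, 0 ≤ a S) (hb : ∀ t, 0 ≤ b t) {C ε s : ℝ} (hε : 0 < ε) (hε1 : ε ≤ 1) (hs : 0 < s)
    (hC : 0 ≤ C)
    (hCa : ent a ≤ C * mn a) (hCb : ent b ≤ C * mn b)
    (hL : (1 + 2 * C / ε ^ 2) * Real.exp s ≤ Fintype.card P) :
    (1 - (ε + (C + 1) / s)) * (mn a * mn b) ≤ G j₀ a b := by
  classical
  rcases (mn_nonneg ha).eq_or_lt with h0 | hma
  · rw [← h0]; simpa using G_nonneg j₀ ha hb
  rcases (mn_nonneg hb).eq_or_lt with h0 | hmb
  · rw [← h0]; simpa using G_nonneg j₀ ha hb
  have hLpos : (0 : ℝ) < Fintype.card P := by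
    exact_mod_cast Fintype.card_pos
  -- bad items
  set Bad : P × Q → ℝ := fun t => if t.1 = j₀ ∨ marg a t.1 t.2 < (1 - ε) * mn a then (1 : ℝ) else 0
    with hBad
  have hBad01 : ∀ t, Bad t = 0 ∨ Bad t = 1 := by
    intro t; simp only [hBad]; split_ifs <;> simp
  have hBad_mn : mn Bad ≤ (1 + 2 * C / ε ^ 2) / Fintype.card P := by
    have e1 : ∀ t : P × Q, Bad t ≤ (if t.1 = j₀ then (1 : ℝ) else 0) +
        (if marg a t.1 t.2 < (1 - ε) * mn a then (1 : ℝ) else 0) := by
      intro t
      simp only [hBad]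
      split_ifs <;> simp_all
    have e2 := mn_mono e1
    rw [mn_add] at e2
    have e3 : mn (fun t : P × Q => if t.1 = j₀ then (1 : ℝ) else 0) = 1 / Fintype.card P := by
      rw [mn_prod]
      have e30 : ∀ k : P, mn (fun _ : Q => if k = j₀ then (1 : ℝ) else 0) =
          if k = j₀ then (1 : ℝ) else 0 := fun k => mn_const _
      rw [mn_congr e30]
      exact mn_single j₀ (fun _ => (1 : ℝ))
    have e4 : mn (fun t : P × Q => if marg a t.1 t.2 < (1 - ε) * mn a then (1 : ℝ) else 0) ≤
        (2 * C / ε ^ 2) / Fintype.card P := by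
      rw [mn_prod]
      have := sum_bad_le a ha hma hε hε1 hCa
      exact div_le_div_of_nonneg_right this hLpos.le
    rw [e3] at e2
    rw [add_div]
    linarith
  -- mass of b on bad items
  have hbBad : mn (fun t => b t * Bad t) ≤ (C + 1) / s * mn b := by
    have key := gibbs_exp b (fun t => s * Bad t) hb
    have e1 : mn (fun t => b t * (s * Bad t)) = s * mn (fun t => b t * Bad t) := by
      rw [← mn_mul_left]
      exact mn_congr fun t => by ring
    have e2 : mn (fun t : P × Q => Real.exp (s * Bad t)) ≤ 2 := by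
      have e3 : ∀ t : P × Q, Real.exp (s * Bad t) ≤ 1 + Real.exp s * Bad t := by
        intro t
        rcases hBad01 t with h | h
        · rw [h]; simp
        · rw [h]; simp
      have e4 := mn_mono e3
      rw [mn_add, mn_const, mn_mul_left] at e4
      have e5 : Real.exp s * mn Bad ≤ 1 := by
        calc Real.exp s * mn Bad ≤ Real.exp s * ((1 + 2 * C / ε ^ 2) / Fintype.card P) :=
              mul_le_mul_of_nonneg_left hBad_mn (Real.exp_pos _).le
          _ = ((1 + 2 * C / ε ^ 2) * Real.exp s) / Fintype.card P := by ring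
          _ ≤ 1 := by
              rw [div_le_one hLpos]
              exact hL
      linarith
    have e6 : Real.log (mn (fun t : P × Q => Real.exp (s * Bad t))) ≤ 1 := by
      have e7 : 0 < mn (fun t : P × Q => Real.exp (s * Bad t)) :=
        mn_pos_of (a := Classical.arbitrary _) (fun q => (Real.exp_pos _).le) (Real.exp_pos _)
      have e8 := Real.log_le_sub_one_of_pos e7
      linarith
    have e9 := mul_le_mul_of_nonneg_left e6 hmb.le
    rw [e1] at key
    have e10 : s * mn (fun t => b t * Bad t) ≤ (C + 1) * mn b := by nlinarith [key, e9, hCb]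
    have e11 : mn (fun t => b t * Bad t) ≤ ((C + 1) * mn b) / s := by
      rw [le_div_iff₀ hs]
      linarith
    calc _ ≤ ((C + 1) * mn b) / s := e11
      _ = _ := by ring
  -- lower bound for G
  have hG : (1 - ε) * mn a * mn (fun t => b t * (1 - Bad t)) ≤ G j₀ a b := by
    rw [mn_prod, ← mn_mul_left]
    unfold G
    simp only [mn]
    refine div_le_div_of_nonneg_right ?_ hLpos.le
    refine sum_le_sum fun k _ => ?_
    have e0 : (∑ q, b (k, q) * (1 - Bad (k, q))) / (Fintype.card Q : ℝ) =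
        mn (fun q => b (k, q) * (1 - Bad (k, q))) := rfl
    have e0' : (∑ S : P → Q, a S * b (k, S k)) / (Fintype.card (P → Q) : ℝ) =
        mn (fun S : P → Q => a S * b (k, S k)) := rfl
    have e0'' : (∑ S : P → Q, a S) / (Fintype.card (P → Q) : ℝ) = mn a := rfl
    rw [e0, e0', e0'']
    by_cases hk : k = j₀
    · have : ∀ q, b (k, q) * (1 - Bad (k, q)) = 0 := by
        intro q; simp [hBad, hk]
      rw [mn_congr this, if_pos hk]
      simp [mn]
    · rw [if_neg hk, mn_mul_marg a k (fun q => b (k, q)), ← mn_mul_left]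
      refine mn_mono fun q => ?_
      by_cases hlt : marg a k q < (1 - ε) * mn a
      · have : Bad (k, q) = 1 := by simp [hBad, hlt]
        rw [this]
        have := mul_nonneg (marg_nonneg ha k q) (hb (k, q))
        simpa using this
      · have h1 : Bad (k, q) = 0 := by simp [hBad, hlt, hk]
        rw [h1]
        have h2 := mul_le_mul_of_nonneg_right (not_lt.1 hlt) (hb (k, q))
        simpa using h2
  have hsplit : mn (fun t => b t * (1 - Bad t)) = mn b - mn (fun t => b t * Bad t) := by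
    rw [← mn_sub]
    exact mn_congr fun t => by ring
  rw [hsplit] at hG
  refine le_trans ?_ hG
  have h1 : 0 ≤ (1 - ε) * mn a := mul_nonneg (by linarith) hma.le
  have h2 : (1 - ε) * mn a * ((1 - (C + 1) / s) * mn b) ≤
      (1 - ε) * mn a * (mn b - mn (fun t => b t * Bad t)) :=
    mul_le_mul_of_nonneg_left (by linarith) h1
  refine le_trans ?_ h2
  have h3 : 0 ≤ (C + 1) / s := by positivity
  have h4 : 0 ≤ mn a * mn b := by positivity
  nlinarith [mul_nonneg (mul_nonneg hε.le h3) h4]

end H644R2
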