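import Mathlib

/-!
# Two-party protocols, external information, expected communication

Definitions used in the statement of the result on `MP_ea601a_lc`.
-/

open Finset

namespace H644R2

/-- A two-party protocol as a finite binary tree.

* `out o`: the protocol stops with output `o`;
* `alice p c₀ c₁`: Alice, who holds `x`, sends the bit `1` with probability `p x` (private
  randomness) and the bit `0` with probability `1 - p x`; the protocol continues with `c₁`,
  respectively with `c₀`;
* `bob p c₀ c₁`: the same for Bob, who holds `y`;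
* `coin p c₀ c₁`: a public coin with bias `p` is tossed; nothing is charged for it. -/
inductive Prot (X Y O : Type) : Type
  | out (o : O) : Prot X Y O
  | alice (p : X → unitInterval) (c₀ c₁ : Prot X Y O) : Prot X Y O
  | bob (p : Y → unitInterval) (c₀ c₁ : Prot X Y O) : Prot X Y O
  | coin (p : unitInterval) (c₀ c₁ : Prot X Y O) : Prot X Y O

/-- A complete transcript of a protocol: its output, the number of bits exchanged, and the
probability `pr x y` that it occurs when the inputs are `x`, `y`. -/
structure Leaf (X Y O : Type) where
  /-- the output -/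
  out : O
  /-- the number of bits exchanged -/
  len : ℕ
  /-- the conditional probability of the transcript given the inputs -/
  pr : X → Y → ℝ

variable {X Y O : Type}

/-- prepend a step that exchanges `k` bits and is taken with probability `q x y` -/
def Leaf.step (k : ℕ) (q : X → Y → ℝ) (l : Leaf X Y O) : Leaf X Y O :=
  ⟨l.out, l.len + k, fun x y => q x y * l.pr x y⟩

/-- the list of all complete transcripts -/
noncomputable def Prot.leaves : Prot X Y O → List (Leaf X Y O)
  | .out o => [⟨o, 0, fun _ _ => 1⟩]
  | .alice p c₀ c₁ => c₀.leaves.map (Leaf.step 1 fun x _ => 1 - (p x : ℝ)) ++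
      c₁.leaves.map (Leaf.step 1 fun x _ => (p x : ℝ))
  | .bob p c₀ c₁ => c₀.leaves.map (Leaf.step 1 fun _ y => 1 - (p y : ℝ)) ++
      c₁.leaves.map (Leaf.step 1 fun _ y => (p y : ℝ))
  | .coin p c₀ c₁ => c₀.leaves.map (Leaf.step 0 fun _ _ => 1 - (p : ℝ)) ++
      c₁.leaves.map (Leaf.step 0 fun _ _ => (p : ℝ))

/-- `T` computes `F` with zero error: on every input, every transcript that can occur carries the
correct output. -/
def Prot.ZeroError (T : Prot X Y O) (F : X → Y → O) : Prop :=
  ∀ l ∈ T.leaves, ∀ x y, 0 < l.pr x y → l.out = F x y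

/-- The contribution of a transcript with conditional probability `pr` to the mutual information
`I(T; XY) = ∑_{τ,x,y} μ(x,y) P(τ|x,y) log₂ (P(τ|x,y) / P(τ))`. -/
noncomputable def trInfo [Fintype X] [Fintype Y] (μ : X → Y → ℝ) (pr : X → Y → ℝ) : ℝ :=
  ∑ x, ∑ y, μ x y * pr x y * Real.logb 2 (pr x y / ∑ x, ∑ y, μ x y * pr x y)

/-- The external information cost `I_μ(T; XY)` in bits. -/
noncomputable def Prot.info [Fintype X] [Fintype Y] (T : Prot X Y O) (μ : X → Y → ℝ) : ℝ :=
  (T.leaves.map fun l => trInfo μ l.pr).sum

/-- The expected number of bits exchanged under the input distribution `μ`. -/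
noncomputable def Prot.cost [Fintype X] [Fintype Y] (T : Prot X Y O) (μ : X → Y → ℝ) : ℝ :=
  ∑ x, ∑ y, μ x y * (T.leaves.map fun l => l.pr x y * (l.len : ℝ)).sum

/-- `IC^ext(F, 0, μ)`: infimum of the external information cost over zero-error protocols. -/
noncomputable def ICext [Fintype X] [Fintype Y] (F : X → Y → O) (μ : X → Y → ℝ) : ℝ :=
  sInf {r | ∃ T : Prot X Y O, T.ZeroError F ∧ T.info μ = r}

/-- Least (infimum) expected number of bits exchanged by zero-error protocols. -/
noncomputable def CCexp [Fintype X] [Fintype Y] (F : X → Y → O) (μ : X → Y → ℝ) : ℝ :=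
  sInf {r | ∃ T : Prot X Y O, T.ZeroError F ∧ T.cost μ = r}

/-- the `n`-fold version of `F` -/
def powF (F : X → Y → O) (n : ℕ) : (Fin n → X) → (Fin n → Y) → (Fin n → O) :=
  fun x y i => F (x i) (y i)

/-- the `n`-fold product distribution -/
def powμ (μ : X → Y → ℝ) (n : ℕ) : (Fin n → X) → (Fin n → Y) → ℝ :=
  fun x y => ∏ i, μ (x i) (y i)

/-- `μ` is a probability distribution on `X × Y`. -/
def IsProb [Fintype X] [Fintype Y] (μ : X → Y → ℝ) : Prop :=
  (∀ x y, 0 ≤ μ x y) ∧ ∑ x, ∑ y, μ x y = 1

/-- A generalised protocol, possibly of unbounded length: an arbitrary family of transcripts;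
transcript `i` has output `out i` and occurs on input `(x, y)` with probability `α i x * β i y`
(the product of the probabilities of Alice's messages and of Bob's messages and the coins), and on
every input the protocol terminates almost surely. -/
structure GenProt (X Y O : Type) where
  /-- the set of transcripts -/
  ι : Type
  /-- the output -/
  out : ι → O
  /-- Alice's factor -/
  α : ι → X → ℝ
  /-- Bob's factor -/
  β : ι → Y → ℝ
  α_nonneg : ∀ i x, 0 ≤ α i x
  β_nonneg : ∀ i y, 0 ≤ β i y
  total : ∀ x y, HasSum (fun i => α i x * β i y) 1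

/-- zero error for generalised protocols -/
def GenProt.ZeroError (T : GenProt X Y O) (F : X → Y → O) : Prop :=
  ∀ i x y, 0 < T.α i x * T.β i y → T.out i = F x y

/-- The external information cost of a generalised protocol (a sum of nonnegative terms). -/
noncomputable def GenProt.info [Fintype X] [Fintype Y] (T : GenProt X Y O) (μ : X → Y → ℝ) :
    ENNReal :=
  ∑' i, ENNReal.ofReal (trInfo μ fun x y => T.α i x * T.β i y)

end H644R2
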