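import Pool.Agent.H644R2.Params
import Pool.Agent.H644R2.Model

/-!
Lower bound on the external information cost.
-/

open Finset

namespace H644R2

section push
variable {Ω U V : Type} [Fintype Ω] [DecidableEq U] [DecidableEq V]

/-- The distribution of `(f ω, g ω)` for uniform `ω`. -/
noncomputable def push (f : Ω → U) (g : Ω → V) (u : U) (v : V) : ℝ :=
  mn (fun ω => if f ω = u ∧ g ω = v then (1 : ℝ) else 0)

lemma mn_sum {ι : Type*} (s : Finset ι) (h : ι → Ω → ℝ) :
    ∑ i ∈ s, mn (h i) = mn (fun ω => ∑ i ∈ s, h i ω) := by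
  simp only [mn]
  rw [sum_comm, sum_div]

lemma push_sum [Fintype U] [Fintype V] (f : Ω → U) (g : Ω → V) (φ : U → V → ℝ) :
    ∑ u, ∑ v, push f g u v * φ u v = mn (fun ω => φ (f ω) (g ω)) := by
  unfold push
  have h1 : ∀ u v, mn (fun ω => if f ω = u ∧ g ω = v then (1 : ℝ) else 0) * φ u v =
      mn (fun ω => if f ω = u ∧ g ω = v then φ u v else 0) := by
    intro u v
    rw [← mn_mul_right]
    refine mn_congr fun ω => ?_
    split_ifs <;> simp
  simp only [h1, mn_sum]
  refine mn_congr fun ω => ?_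
  simp [ite_and]

lemma push_nonneg (f : Ω → U) (g : Ω → V) (u : U) (v : V) : 0 ≤ push f g u v :=
  mn_nonneg fun ω => by split_ifs <;> norm_num

lemma push_isProb [Nonempty Ω] [Fintype U] [Fintype V] (f : Ω → U) (g : Ω → V) :
    IsProb (push f g) := by
  refine ⟨push_nonneg f g, ?_⟩
  have := push_sum f g (fun _ _ => (1 : ℝ))
  simp only [mul_one] at this
  rw [this, mn_const]

lemma trInfo_push [Fintype U] [Fintype V] (f : Ω → U) (g : Ω → V) (pr : U → V → ℝ)
    (hpr : ∀ u v, 0 ≤ pr u v) :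
    trInfo (push f g) pr = ent (fun ω => pr (f ω) (g ω)) / Real.log 2 := by
  unfold trInfo
  rw [push_sum f g pr]
  set m := mn (fun ω => pr (f ω) (g ω)) with hm
  have h1 : ∀ u v, push f g u v * pr u v * Real.logb 2 (pr u v / m) =
      push f g u v * (pr u v * Real.logb 2 (pr u v / m)) := fun u v => mul_assoc _ _ _
  simp only [h1]
  rw [push_sum f g (fun u v => pr u v * Real.logb 2 (pr u v / m))]
  have hm0 : 0 ≤ m := mn_nonneg fun ω => hpr _ _
  rcases hm0.eq_or_lt with h0 | hpos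
  · have h2 : ∀ ω, pr (f ω) (g ω) = 0 :=
      eq_zero_of_mn_eq_zero (fun ω => hpr _ _) (by rw [← hm, ← h0])
    unfold ent
    simp [h2, mn]
  · have h2 : ∀ ω, pr (f ω) (g ω) * Real.logb 2 (pr (f ω) (g ω) / m) =
        (pr (f ω) (g ω) * Real.log (pr (f ω) (g ω)) - pr (f ω) (g ω) * Real.log m) *
          (Real.log 2)⁻¹ := by
      intro ω
      rcases (hpr (f ω) (g ω)).eq_or_lt with h3 | h3
      · rw [← h3]; simp
      · unfold Real.logb
        rw [Real.log_div h3.ne' hpos.ne']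
        ring
    rw [mn_congr h2, mn_mul_right, mn_sub, mn_mul_right]
    unfold ent
    rw [← hm, div_eq_mul_inv]

end push

section prot
variable {X Y O : Type}

lemma leaf_prod (T : Prot X Y O) : ∀ l ∈ T.leaves, ∃ (α : X → ℝ) (β : Y → ℝ),
    (∀ x, 0 ≤ α x) ∧ (∀ y, 0 ≤ β y) ∧ ∀ x y, l.pr x y = α x * β y := by
  induction T with
  | out o =>
    intro l hl
    simp only [Prot.leaves, List.mem_singleton] at hl
    subst hl
    exact ⟨fun _ => 1, fun _ => 1, fun _ => zero_le_one, fun _ => zero_le_one, fun _ _ => by simp⟩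
  | alice p c₀ c₁ ih₀ ih₁ =>
    intro l hl
    simp only [Prot.leaves, List.mem_append, List.mem_map] at hl
    rcases hl with ⟨l', hl', rfl⟩ | ⟨l', hl', rfl⟩
    · obtain ⟨α, β, hα, hβ, h⟩ := ih₀ l' hl'
      refine ⟨fun x => (1 - (p x : ℝ)) * α x, β,
        fun x => mul_nonneg (sub_nonneg.2 (p x).2.2) (hα x), hβ, fun x y => ?_⟩
      simp only [Leaf.step, h]; ring
    · obtain ⟨α, β, hα, hβ, h⟩ := ih₁ l' hl'
      refine ⟨fun x => (p x : ℝ) * α x, β, fun x => mul_nonneg (p x).2.1 (hα x), hβ,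
        fun x y => ?_⟩
      simp only [Leaf.step, h]; ring
  | bob p c₀ c₁ ih₀ ih₁ =>
    intro l hl
    simp only [Prot.leaves, List.mem_append, List.mem_map] at hl
    rcases hl with ⟨l', hl', rfl⟩ | ⟨l', hl', rfl⟩
    · obtain ⟨α, β, hα, hβ, h⟩ := ih₀ l' hl'
      refine ⟨α, fun y => (1 - (p y : ℝ)) * β y, hα,
        fun x => mul_nonneg (sub_nonneg.2 (p x).2.2) (hβ x), fun x y => ?_⟩
      simp only [Leaf.step, h]; ring
    · obtain ⟨α, β, hα, hβ, h⟩ := ih₁ l' hl'
      refine ⟨α, fun x => (p x : ℝ) * β x, hα, fun x => mul_nonneg (p x).2.1 (hβ x),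
        fun x y => ?_⟩
      simp only [Leaf.step, h]; ring
  | coin p c₀ c₁ ih₀ ih₁ =>
    intro l hl
    simp only [Prot.leaves, List.mem_append, List.mem_map] at hl
    rcases hl with ⟨l', hl', rfl⟩ | ⟨l', hl', rfl⟩
    · obtain ⟨α, β, hα, hβ, h⟩ := ih₀ l' hl'
      refine ⟨α, fun y => (1 - (p : ℝ)) * β y, hα,
        fun x => mul_nonneg (sub_nonneg.2 p.2.2) (hβ x), fun x y => ?_⟩
      simp only [Leaf.step, h]; ring
    · obtain ⟨α, β, hα, hβ, h⟩ := ih₁ l' hl'
      refine ⟨α, fun x => (p : ℝ) * β x, hα, fun x => mul_nonneg p.2.1 (hβ x),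
        fun x y => ?_⟩
      simp only [Leaf.step, h]; ring

/-- expectation of a function of output and length on a fixed input -/
noncomputable def Prot.ex (T : Prot X Y O) (x : X) (y : Y) (φ : O → ℕ → ℝ) : ℝ :=
  (T.leaves.map fun l => l.pr x y * φ l.out l.len).sum

lemma list_map_mul (L : List (Leaf X Y O)) (k : ℕ) (q : X → Y → ℝ) (x : X) (y : Y)
    (φ : O → ℕ → ℝ) :
    ((L.map (Leaf.step k q)).map fun l => l.pr x y * φ l.out l.len).sum =
      q x y * (L.map fun l => l.pr x y * φ l.out (l.len + k)).sum := by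
  induction L with
  | nil => simp
  | cons a L ih =>
    simp only [List.map_cons, List.sum_cons, ih, Leaf.step, mul_add]
    ring

lemma ex_out (o : O) (x : X) (y : Y) (φ : O → ℕ → ℝ) :
    (Prot.out o : Prot X Y O).ex x y φ = φ o 0 := by
  simp [Prot.ex, Prot.leaves]

lemma ex_alice (p : X → unitInterval) (c₀ c₁ : Prot X Y O) (x : X) (y : Y) (φ : O → ℕ → ℝ) :
    (Prot.alice p c₀ c₁).ex x y φ = (1 - (p x : ℝ)) * c₀.ex x y (fun o n => φ o (n + 1)) +
      (p x : ℝ) * c₁.ex x y (fun o n => φ o (n + 1)) := by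
  unfold Prot.ex
  rw [Prot.leaves, List.map_append, List.sum_append, list_map_mul, list_map_mul]

lemma ex_bob (p : Y → unitInterval) (c₀ c₁ : Prot X Y O) (x : X) (y : Y) (φ : O → ℕ → ℝ) :
    (Prot.bob p c₀ c₁).ex x y φ = (1 - (p y : ℝ)) * c₀.ex x y (fun o n => φ o (n + 1)) +
      (p y : ℝ) * c₁.ex x y (fun o n => φ o (n + 1)) := by
  unfold Prot.ex
  rw [Prot.leaves, List.map_append, List.sum_append, list_map_mul, list_map_mul]

lemma ex_coin (p : unitInterval) (c₀ c₁ : Prot X Y O) (x : X) (y : Y) (φ : O → ℕ → ℝ) :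
    (Prot.coin p c₀ c₁).ex x y φ = (1 - (p : ℝ)) * c₀.ex x y (fun o n => φ o (n + 0)) +
      (p : ℝ) * c₁.ex x y (fun o n => φ o (n + 0)) := by
  unfold Prot.ex
  rw [Prot.leaves, List.map_append, List.sum_append, list_map_mul, list_map_mul]

lemma ex_one (T : Prot X Y O) (x : X) (y : Y) : T.ex x y (fun _ _ => 1) = 1 := by
  induction T with
  | out o => rw [ex_out]
  | alice p c₀ c₁ ih₀ ih₁ => rw [ex_alice, ih₀, ih₁]; ring
  | bob p c₀ c₁ ih₀ ih₁ => rw [ex_bob, ih₀, ih₁]; ring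
  | coin p c₀ c₁ ih₀ ih₁ => rw [ex_coin, ih₀, ih₁]; ring

lemma sum_pr (T : Prot X Y O) (x : X) (y : Y) : (T.leaves.map fun l => l.pr x y).sum = 1 := by
  have := ex_one T x y
  unfold Prot.ex at this
  simpa using this

end prot

section lower
variable {P Q : Type} [Fintype P] [Fintype Q] [DecidableEq P] [DecidableEq Q]

instance (S : P → Q) (t : Bool → P × Q) : Decidable (Hit S t) := by
  unfold Hit; infer_instance

/-- Alice's input as a function of the sample point -/
def inA (ω : Om P Q) : Fin 3 × (P → Q) := (nv ω.1.1 ω.1.2, plant ω.2.1 ω.2.2.1)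

/-- Bob's input as a function of the sample point -/
def inB (ω : Om P Q) : Fin 3 × (Bool → P × Q) := (ω.1.1, pr2 ω.1.2 ω.2.2.1 ω.2.2.2)

variable {U V : Type} [Fintype U] [Fintype V] [DecidableEq U] [DecidableEq V]
  (encA : Fin 3 × (P → Q) → U) (decA : U → Fin 3 × (P → Q))
  (encB : Fin 3 × (Bool → P × Q) → V) (decB : V → Fin 3 × (Bool → P × Q))

/-- the hard function: `0` iff Alice's selection hits Bob's pair -/
def Fbit (u : U) (v : V) : Bool := !decide (Hit (decA u).2 (decB v).2)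

/-- the three averages of a transcript -/
noncomputable def Mμ (pr : U → V → ℝ) : ℝ := mn (fun ω : Om P Q => pr (encA (inA ω)) (encB (inB ω)))

/-- the `ν` average of a transcript -/
noncomputable def Mν (pr : U → V → ℝ) : ℝ :=
  mn (fun ω : On P Q => pr (encA (nv ω.1.1 ω.1.2, ω.2.1))
    (encB (ω.1.1, pr2 ω.1.2 (ω.2.2.1, ω.2.1 ω.2.2.1) (ω.2.2.2, ω.2.1 ω.2.2.2))))

/-- the `ζ` average of a transcript -/
noncomputable def Mζ (pr : U → V → ℝ) : ℝ :=
  mn (fun ω : Om P Q => pr (encA (ω.1.1, plant ω.2.1 ω.2.2.1)) (encB (inB ω)))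

omit [Fintype P] [Fintype Q] [DecidableEq Q] in
lemma hit_plant (S : P → Q) (e : Bool) (w t : P × Q) : Hit (plant S w) (pr2 e w t) :=
  ⟨e, by simp [plant, pr2]⟩

omit [Fintype P] [Fintype Q] [DecidableEq P] [DecidableEq Q] in
lemma hit_double (S : P → Q) (e : Bool) (j k : P) : Hit S (pr2 e (j, S j) (k, S k)) :=
  ⟨e, by simp [pr2]⟩

/-- the inequality supplied by `exists_params` -/
def Good (P Q : Type) [Fintype P] [Fintype Q] [DecidableEq P] [DecidableEq Q] (K Λ η : ℝ) : Prop :=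
  ∀ (a : Fin 3 → (P → Q) → ℝ) (b : Fin 3 → (Bool → P × Q) → ℝ),
      (∀ x S, 0 ≤ a x S) → (∀ y t, 0 ≤ b y t) →
      (∀ x S y t, 0 < a x S → 0 < b y t → Hit S t) →
      (K + Λ) * mn (gμ a b) ≤ ent (gμ a b) + K * mn (gν a b) + η * mn (gζ a b)

omit [Fintype U] [Fintype V] [DecidableEq U] [DecidableEq V] in
lemma one_transcript {K Λ η : ℝ} (hgood : Good P Q K Λ η)
    (hA : ∀ x, decA (encA x) = x) (hB : ∀ y, decB (encB y) = y)
    (pr : U → V → ℝ) (o : Bool)
    (hprod : ∃ (α : U → ℝ) (β : V → ℝ), (∀ x, 0 ≤ α x) ∧ (∀ y, 0 ≤ β y) ∧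
      ∀ x y, pr x y = α x * β y)
    (hz : ∀ u v, 0 < pr u v → o = Fbit decA decB u v) :
    (K + Λ) * Mμ encA encB pr - K * Mν (P := P) (Q := Q) encA encB pr -
      η * Mζ encA encB pr ≤ ent (fun ω : Om P Q => pr (encA (inA ω)) (encB (inB ω))) := by
  obtain ⟨α, β, hα, hβ, hαβ⟩ := hprod
  have h0 : ∀ u v, 0 ≤ pr u v := fun u v => by rw [hαβ]; exact mul_nonneg (hα _) (hβ _)
  cases o with
  | false =>
    have key := hgood (fun x S => α (encA (x, S))) (fun y t => β (encB (y, t)))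
      (fun x S => hα _) (fun y t => hβ _) (by
        intro x S y t h1 h2
        have h3 := hz (encA (x, S)) (encB (y, t)) (by rw [hαβ]; exact mul_pos h1 h2)
        unfold Fbit at h3
        rw [hA, hB] at h3
        simpa using h3)
    have e1 : (fun ω : Om P Q => pr (encA (inA ω)) (encB (inB ω))) =
        gμ (fun x S => α (encA (x, S))) (fun y t => β (encB (y, t))) := by
      funext ω; rw [hαβ]; rfl
    have e2 : Mν (P := P) (Q := Q) encA encB pr =
        mn (gν (fun x S => α (encA (x, S))) (fun y t => β (encB (y, t)))) := by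
      unfold Mν; refine mn_congr fun ω => ?_
      rw [hαβ]; rfl
    have e3 : Mζ encA encB pr =
        mn (gζ (fun x S => α (encA (x, S))) (fun y t => β (encB (y, t)))) := by
      unfold Mζ; refine mn_congr fun ω => ?_
      rw [hαβ]; rfl
    unfold Mμ
    rw [e1, e2, e3]
    linarith
  | true =>
    have hzero : ∀ x y, Hit x.2 y.2 → pr (encA x) (encB y) = 0 := by
      intro x y hxy
      by_contra hne
      have h3 := hz (encA x) (encB y) (lt_of_le_of_ne (h0 _ _) (Ne.symm hne))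
      unfold Fbit at h3
      rw [hA, hB] at h3
      simp [hxy] at h3
    have e1 : (fun ω : Om P Q => pr (encA (inA ω)) (encB (inB ω))) = fun _ => 0 := by
      funext ω
      exact hzero _ _ (hit_plant _ _ _ _)
    have e2 : Mν (P := P) (Q := Q) encA encB pr = 0 := by
      have h1 : ∀ ω : On P Q, pr (encA (nv ω.1.1 ω.1.2, ω.2.1))
          (encB (ω.1.1, pr2 ω.1.2 (ω.2.2.1, ω.2.1 ω.2.2.1) (ω.2.2.2, ω.2.1 ω.2.2.2))) = 0 :=
        fun ω => hzero _ _ (hit_double _ _ _ _)
      unfold Mν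
      rw [mn_congr h1]; simp [mn]
    have e3 : Mζ encA encB pr = 0 := by
      have h1 : ∀ ω : Om P Q, pr (encA (ω.1.1, plant ω.2.1 ω.2.2.1)) (encB (inB ω)) = 0 :=
        fun ω => hzero _ _ (hit_plant _ _ _ _)
      unfold Mζ
      rw [mn_congr h1]; simp [mn]
    unfold Mμ
    rw [e1, e2, e3]
    simp [ent, mn]

lemma mn_list_sum {Ω ι : Type} [Fintype Ω] (L : List ι) (h : ι → Ω → ℝ) :
    (L.map fun i => mn (h i)).sum = mn (fun ω => (L.map fun i => h i ω).sum) := by
  induction L with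
  | nil => simp [mn]
  | cons a L ih =>
    simp only [List.map_cons, List.sum_cons, ih]
    rw [← mn_add]

variable [Nonempty P] [Nonempty Q]

/-- Lower bound for finite protocols. -/
theorem info_ge {K Λ η : ℝ} (hgood : Good P Q K Λ η)
    (hA : ∀ x, decA (encA x) = x) (hB : ∀ y, decB (encB y) = y)
    (T : Prot U V Bool) (hT : T.ZeroError (Fbit decA decB)) :
    (Λ - η) / Real.log 2 ≤
      T.info (push (fun ω : Om P Q => encA (inA ω)) (fun ω => encB (inB ω))) := by
  have hlog : 0 < Real.log 2 := Real.log_pos (by norm_num)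
  unfold Prot.info
  have h1 : ∀ l ∈ T.leaves, ((K + Λ) * Mμ encA encB l.pr -
      K * Mν (P := P) (Q := Q) encA encB l.pr - η * Mζ encA encB l.pr) / Real.log 2 ≤
      trInfo (push (fun ω : Om P Q => encA (inA ω)) (fun ω => encB (inB ω))) l.pr := by
    intro l hl
    have hprod := leaf_prod T l hl
    have hnn : ∀ u v, 0 ≤ l.pr u v := by
      obtain ⟨α, β, hα, hβ, hαβ⟩ := hprod
      intro u v; rw [hαβ]; exact mul_nonneg (hα _) (hβ _)
    rw [trInfo_push _ _ _ hnn]
    exact div_le_div_of_nonneg_right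
      (one_transcript encA decA encB decB hgood hA hB l.pr l.out hprod
        (fun u v h => hT l hl u v h)) hlog.le
  have h2 := List.sum_le_sum h1
  refine le_trans (le_of_eq ?_) h2
  have e1 : (T.leaves.map fun l => Mμ encA encB l.pr).sum = 1 := by
    unfold Mμ
    rw [mn_list_sum T.leaves (fun (l : Leaf U V Bool) (ω : Om P Q) =>
      l.pr (encA (inA ω)) (encB (inB ω)))]
    simp only [sum_pr]
    exact mn_const _
  have e2 : (T.leaves.map fun l => Mν (P := P) (Q := Q) encA encB l.pr).sum = 1 := by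
    unfold Mν
    rw [mn_list_sum T.leaves (fun (l : Leaf U V Bool) (ω : On P Q) =>
      l.pr (encA (nv ω.1.1 ω.1.2, ω.2.1))
      (encB (ω.1.1, pr2 ω.1.2 (ω.2.2.1, ω.2.1 ω.2.2.1) (ω.2.2.2, ω.2.1 ω.2.2.2))))]
    simp only [sum_pr]
    exact mn_const _
  have e3 : (T.leaves.map fun l => Mζ encA encB l.pr).sum = 1 := by
    unfold Mζ
    rw [mn_list_sum T.leaves (fun (l : Leaf U V Bool) (ω : Om P Q) =>
      l.pr (encA (ω.1.1, plant ω.2.1 ω.2.2.1)) (encB (inB ω)))]
    simp only [sum_pr]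
    exact mn_const _
  have e4 : ∀ L : List (Leaf U V Bool), (L.map fun l => ((K + Λ) * Mμ encA encB l.pr -
      K * Mν (P := P) (Q := Q) encA encB l.pr - η * Mζ encA encB l.pr) / Real.log 2).sum =
      ((K + Λ) * (L.map fun l => Mμ encA encB l.pr).sum -
      K * (L.map fun l => Mν (P := P) (Q := Q) encA encB l.pr).sum -
      η * (L.map fun l => Mζ encA encB l.pr).sum) / Real.log 2 := by
    intro L
    induction L with
    | nil => simp
    | cons a L ih =>
      simp only [List.map_cons, List.sum_cons, ih]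
      ring
  rw [e4, e1, e2, e3]
  ring

/-- Lower bound for generalised (infinite) protocols. -/
theorem info_ge_gen {K Λ η : ℝ} (hgood : Good P Q K Λ η)
    (hA : ∀ x, decA (encA x) = x) (hB : ∀ y, decB (encB y) = y)
    (T : GenProt U V Bool) (hT : T.ZeroError (Fbit decA decB)) :
    ENNReal.ofReal ((Λ - η) / Real.log 2) ≤
      T.info (push (fun ω : Om P Q => encA (inA ω)) (fun ω => encB (inB ω))) := by
  have hlog : 0 < Real.log 2 := Real.log_pos (by norm_num)
  set pr : T.ι → U → V → ℝ := fun i u v => T.α i u * T.β i v with hpr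
  have hnn : ∀ i u v, 0 ≤ pr i u v := fun i u v => mul_nonneg (T.α_nonneg _ _) (T.β_nonneg _ _)
  set lo : T.ι → ℝ := fun i => ((K + Λ) * Mμ encA encB (pr i) -
      K * Mν (P := P) (Q := Q) encA encB (pr i) - η * Mζ encA encB (pr i)) / Real.log 2 with hlo
  have h1 : ∀ i, lo i ≤
      trInfo (push (fun ω : Om P Q => encA (inA ω)) (fun ω => encB (inB ω))) (pr i) := by
    intro i
    rw [trInfo_push _ _ _ (hnn i)]
    exact div_le_div_of_nonneg_right
      (one_transcript encA decA encB decB hgood hA hB (pr i) (T.out i)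
        ⟨T.α i, T.β i, T.α_nonneg i, T.β_nonneg i, fun _ _ => rfl⟩
        (fun u v h => hT i u v h)) hlog.le
  have hmn : ∀ {Ω : Type} [Fintype Ω] [Nonempty Ω] (f : Ω → U) (g : Ω → V),
      HasSum (fun i => mn (fun ω => pr i (f ω) (g ω))) 1 := by
    intro Ω _ _ f g
    have h2 : HasSum (fun i => ∑ ω, pr i (f ω) (g ω)) (∑ ω : Ω, (1 : ℝ)) :=
      hasSum_sum fun ω _ => T.total (f ω) (g ω)
    have h3 := h2.div_const (Fintype.card Ω : ℝ)
    have h4 : (∑ ω : Ω, (1 : ℝ)) / Fintype.card Ω = 1 := mn_const 1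
    rw [h4] at h3
    exact h3
  have hsum : HasSum lo ((Λ - η) / Real.log 2) := by
    have s1 : HasSum (fun i => Mμ encA encB (pr i)) 1 :=
      hmn (fun ω : Om P Q => encA (inA ω)) (fun ω => encB (inB ω))
    have s2 : HasSum (fun i => Mν (P := P) (Q := Q) encA encB (pr i)) 1 :=
      hmn (fun ω : On P Q => encA (nv ω.1.1 ω.1.2, ω.2.1)) (fun ω =>
        encB (ω.1.1, pr2 ω.1.2 (ω.2.2.1, ω.2.1 ω.2.2.1) (ω.2.2.2, ω.2.1 ω.2.2.2)))
    have s3 : HasSum (fun i => Mζ encA encB (pr i)) 1 :=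
      hmn (fun ω : Om P Q => encA (ω.1.1, plant ω.2.1 ω.2.2.1)) (fun ω => encB (inB ω))
    have s4 := (((s1.mul_left (K + Λ)).sub (s2.mul_left K)).sub (s3.mul_left η)).div_const
      (Real.log 2)
    have e : ((K + Λ) * 1 - K * 1 - η * 1) / Real.log 2 = (Λ - η) / Real.log 2 := by ring
    rw [e] at s4
    exact s4
  have hlim : Filter.Tendsto (fun s : Finset T.ι => ENNReal.ofReal (∑ i ∈ s, lo i)) Filter.atTop
      (nhds (ENNReal.ofReal ((Λ - η) / Real.log 2))) :=
    (ENNReal.continuous_ofReal.tendsto _).comp hsum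
  refine le_of_tendsto' hlim fun s => ?_
  calc ENNReal.ofReal (∑ i ∈ s, lo i) ≤
      ENNReal.ofReal (∑ i ∈ s, max (trInfo (push (fun ω : Om P Q => encA (inA ω))
        (fun ω => encB (inB ω))) (pr i)) 0) :=
        ENNReal.ofReal_le_ofReal (sum_le_sum fun i _ => (h1 i).trans (le_max_left _ _))
    _ = ∑ i ∈ s, ENNReal.ofReal (max (trInfo (push (fun ω : Om P Q => encA (inA ω))
        (fun ω => encB (inB ω))) (pr i)) 0) :=
        ENNReal.ofReal_sum_of_nonneg fun i _ => le_max_right _ _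
    _ = ∑ i ∈ s, ENNReal.ofReal (trInfo (push (fun ω : Om P Q => encA (inA ω))
        (fun ω => encB (inB ω))) (pr i)) := by
        refine sum_congr rfl fun i _ => ?_
        rcases le_total (trInfo (push (fun ω : Om P Q => encA (inA ω))
          (fun ω => encB (inB ω))) (pr i)) 0 with h | h
        · rw [max_eq_right h, ENNReal.ofReal_of_nonpos h, ENNReal.ofReal_zero]
        · rw [max_eq_left h]
    _ ≤ _ := ENNReal.sum_le_tsum s

end lower

end H644R2
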