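import Pool.Agent.H644R2.Comb

/-!
The leaf inequality.
-/

open Finset

namespace H644R2

variable {P Q : Type*} [Fintype P] [Fintype Q] [DecidableEq P] [DecidableEq Q]

/-- plant the item `w` in the selection `S` -/
def plant (S : P → Q) (w : P × Q) : P → Q := Function.update S w.1 w.2

/-- the pair with item `w` in slot `e` and item `t` in the other slot -/
def pr2 (e : Bool) (w t : P × Q) : Bool → P × Q := fun e' => if e' = e then w else t

/-- the selection `S` hits the pair `t` -/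
def Hit (S : P → Q) (t : Bool → P × Q) : Prop := ∃ e, S (t e).1 = (t e).2

/-- the sample space of `μ` -/
abbrev Om (P Q : Type*) := (Fin 3 × Bool) × (P → Q) × (P × Q) × (P × Q)

/-- the sample space of `ν` -/
abbrev On (P Q : Type*) := (Fin 3 × Bool) × (P → Q) × P × P

/-- a product leaf, as a function on the sample space of `μ` -/
def gμ (a : Fin 3 → (P → Q) → ℝ) (b : Fin 3 → (Bool → P × Q) → ℝ) (ω : Om P Q) : ℝ :=
  a (nv ω.1.1 ω.1.2) (plant ω.2.1 ω.2.2.1) * b ω.1.1 (pr2 ω.1.2 ω.2.2.1 ω.2.2.2)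

/-- the diagonal variant `x = y` -/
def gζ (a : Fin 3 → (P → Q) → ℝ) (b : Fin 3 → (Bool → P × Q) → ℝ) (ω : Om P Q) : ℝ :=
  a ω.1.1 (plant ω.2.1 ω.2.2.1) * b ω.1.1 (pr2 ω.1.2 ω.2.2.1 ω.2.2.2)

/-- the variant in which both items of Bob are hit -/
def gν (a : Fin 3 → (P → Q) → ℝ) (b : Fin 3 → (Bool → P × Q) → ℝ) (ω : On P Q) : ℝ :=
  a (nv ω.1.1 ω.1.2) ω.2.1 *
    b ω.1.1 (pr2 ω.1.2 (ω.2.2.1, ω.2.1 ω.2.2.1) (ω.2.2.2, ω.2.1 ω.2.2.2))

lemma mul_log_mul (x y : ℝ) :
    (x * y) * Real.log (x * y) = y * (x * Real.log x) + x * (y * Real.log y) := by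
  rcases eq_or_ne x 0 with h | h
  · simp [h]
  rcases eq_or_ne y 0 with h' | h'
  · simp [h']
  rw [Real.log_mul h h']
  ring

lemma ent_mul {α β : Type*} [Fintype α] [Fintype β] (A : α → ℝ) (b : β → ℝ) :
    mn (fun x => mn (fun y => (A x * b y) * Real.log (A x * b y))) =
      mn b * ent A + mn A * ent b + (mn A * mn b) * Real.log (mn A * mn b) := by
  have h1 : ∀ x, mn (fun y => (A x * b y) * Real.log (A x * b y)) =
      mn b * (A x * Real.log (A x)) + A x * mn (fun y => b y * Real.log (b y)) := by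
    intro x
    have : ∀ y, (A x * b y) * Real.log (A x * b y) =
        b y * (A x * Real.log (A x)) + A x * (b y * Real.log (b y)) := fun y => mul_log_mul _ _
    rw [mn_congr this, mn_add, mn_mul_right, mn_mul_left]
  rw [mn_congr h1, mn_add, mn_mul_left, mn_mul_right, mul_log_mul]
  unfold ent
  ring

lemma mn_om (Φ : Om P Q → ℝ) :
    mn Φ = mn (fun c => mn (fun S => mn (fun w => mn (fun t => Φ (c, S, w, t))))) := by
  rw [mn_prod]
  refine mn_congr fun c => ?_
  rw [mn_prod]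
  refine mn_congr fun S => ?_
  rw [mn_prod]

lemma mn_on (Φ : On P Q → ℝ) :
    mn Φ = mn (fun c => mn (fun S => mn (fun j => mn (fun k => Φ (c, S, j, k))))) := by
  rw [mn_prod]
  refine mn_congr fun c => ?_
  rw [mn_prod]
  refine mn_congr fun S => ?_
  rw [mn_prod]

lemma mn_om_single (Φ : Om P Q → ℝ) (ω₀ : P × Q) :
    mn (fun ω : Om P Q => if ω.2.2.1 = ω₀ then Φ ω else 0) =
      mn (fun c => mn (fun S => mn (fun t => Φ (c, S, ω₀, t)))) / Fintype.card (P × Q) := by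
  rw [mn_om, div_eq_mul_inv, ← mn_mul_right]
  refine mn_congr fun c => ?_
  rw [← mn_mul_right]
  refine mn_congr fun S => ?_
  have : ∀ w : P × Q, mn (fun t : P × Q => if w = ω₀ then Φ (c, S, w, t) else 0) =
      if w = ω₀ then mn (fun t => Φ (c, S, w, t)) else 0 := by
    intro w
    split_ifs
    · rfl
    · simp [mn]
  rw [mn_congr this, mn_single ω₀ (fun w => mn (fun t => Φ (c, S, w, t))), div_eq_mul_inv]

/-- dropping to one row and one column -/
lemma mn_mn_ge (j₀ : P) (h : P → P → ℝ) (hh : ∀ j k, 0 ≤ h j k) :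
    (∑ k, if k = j₀ then 0 else h j₀ k) / (Fintype.card P : ℝ) ^ 2 +
      (∑ j, if j = j₀ then 0 else h j j₀) / (Fintype.card P : ℝ) ^ 2 ≤
      mn (fun j => mn (fun k => h j k)) := by
  have h1 : mn (fun j => mn (fun k => h j k)) = (∑ j, ∑ k, h j k) / (Fintype.card P : ℝ) ^ 2 := by
    simp only [mn]
    rw [← sum_div, div_div, sq]
  rw [h1, ← add_div]
  refine div_le_div_of_nonneg_right ?_ (by positivity)
  have h2 : ∑ j, ∑ k, h j k = ∑ k, h j₀ k + ∑ j ∈ univ.erase j₀, ∑ k, h j k := by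
    rw [← add_sum_erase univ _ (mem_univ j₀)]
  rw [h2]
  refine add_le_add ?_ ?_
  · refine sum_le_sum fun k _ => ?_
    split_ifs
    · exact hh _ _
    · exact le_rfl
  · rw [← add_sum_erase univ _ (mem_univ j₀)]
    simp only [if_true, zero_add]
    refine sum_le_sum fun j hj => ?_
    rw [if_neg (ne_of_mem_erase hj)]
    exact single_le_sum (f := fun k => h j k) (fun k _ => hh j k) (mem_univ j₀)

variable [Nonempty P] [Nonempty Q]

lemma nu_ge (a : Fin 3 → (P → Q) → ℝ) (b : Fin 3 → (Bool → P × Q) → ℝ)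
    (ha : ∀ x S, 0 ≤ a x S) (hb : ∀ y t, 0 ≤ b y t) (ω₀ : P × Q) :
    mn (fun c : Fin 3 × Bool =>
        G ω₀.1 (fun S => a (nv c.1 c.2) (plant S ω₀)) (fun t => b c.1 (pr2 c.2 ω₀ t)) +
        G ω₀.1 (fun S => a (nv c.1 (!c.2)) (plant S ω₀)) (fun t => b c.1 (pr2 c.2 ω₀ t))) /
      Fintype.card (P × Q) ≤ mn (gν a b) := by
  obtain ⟨j₀, p₀⟩ := ω₀
  have hL : (Fintype.card P : ℝ) ≠ 0 := by exact_mod_cast Fintype.card_ne_zero
  have hM : (Fintype.card Q : ℝ) ≠ 0 := by exact_mod_cast Fintype.card_ne_zero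
  set L : ℝ := (Fintype.card P : ℝ) with hLdef
  set M : ℝ := (Fintype.card Q : ℝ) with hMdef
  -- pointwise in the cell
  have hcell : ∀ c : Fin 3 × Bool,
      (G j₀ (fun S => a (nv c.1 c.2) (plant S (j₀, p₀))) (fun t => b c.1 (pr2 c.2 (j₀, p₀) t)) +
       G j₀ (fun S => a (nv c.1 c.2) (plant S (j₀, p₀))) (fun t => b c.1 (pr2 (!c.2) (j₀, p₀) t)))
        / (L * M) ≤
      mn (fun S : P → Q => mn (fun j => mn (fun k => gν a b (c, S, j, k)))) := by
    intro c
    obtain ⟨y, e⟩ := c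
    -- the function of S
    set F₁ : (P → Q) → ℝ := fun S => (∑ k, if k = j₀ then 0 else
      a (nv y e) S * b y (pr2 e (j₀, S j₀) (k, S k))) / L ^ 2 with hF₁
    set F₂ : (P → Q) → ℝ := fun S => (∑ j, if j = j₀ then 0 else
      a (nv y e) S * b y (pr2 e (j, S j) (j₀, S j₀))) / L ^ 2 with hF₂
    have h1 : ∀ S : P → Q, (if S j₀ = p₀ then F₁ S + F₂ S else 0) ≤
        mn (fun j => mn (fun k => gν a b ((y, e), S, j, k))) := by
      intro S
      split_ifs
      · exact mn_mn_ge j₀ (fun j k => gν a b ((y, e), S, j, k))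
          (fun j k => mul_nonneg (ha _ _) (hb _ _))
      · exact mn_nonneg fun j => mn_nonneg fun k => mul_nonneg (ha _ _) (hb _ _)
    refine le_trans (le_of_eq ?_) (mn_mono h1)
    rw [mn_ind_update j₀ p₀ (fun S => F₁ S + F₂ S), mn_add]
    have h2 : mn (fun S : P → Q => F₁ (Function.update S j₀ p₀)) =
        G j₀ (fun S => a (nv y e) (plant S (j₀, p₀))) (fun t => b y (pr2 e (j₀, p₀) t)) / L := by
      have e1 : ∀ S : P → Q, F₁ (Function.update S j₀ p₀) =
          (∑ k, if k = j₀ then 0 else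
            a (nv y e) (plant S (j₀, p₀)) * b y (pr2 e (j₀, p₀) (k, S k))) / L ^ 2 := by
        intro S
        simp only [hF₁]
        congr 1
        refine sum_congr rfl fun k _ => ?_
        by_cases hk : k = j₀
        · simp [hk]
        · rw [if_neg hk, if_neg hk, Function.update_self, Function.update_of_ne hk]
          rfl
      rw [mn_congr e1]
      unfold G
      rw [div_div, ← sq]
      have e2 : mn (fun S : P → Q => (∑ k, if k = j₀ then 0 else
            a (nv y e) (plant S (j₀, p₀)) * b y (pr2 e (j₀, p₀) (k, S k))) / L ^ 2) =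
          (∑ k, if k = j₀ then 0 else mn (fun S : P → Q =>
            a (nv y e) (plant S (j₀, p₀)) * b y (pr2 e (j₀, p₀) (k, S k)))) / L ^ 2 := by
        simp only [mn]
        rw [← sum_div, sum_comm, div_right_comm, sum_div]
        congr 1
        refine sum_congr rfl fun k _ => ?_
        split_ifs <;> simp
      exact e2
    have h3 : mn (fun S : P → Q => F₂ (Function.update S j₀ p₀)) =
        G j₀ (fun S => a (nv y e) (plant S (j₀, p₀))) (fun t => b y (pr2 (!e) (j₀, p₀) t)) / L := by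
      have hpr : ∀ t : P × Q, pr2 e t (j₀, p₀) = pr2 (!e) (j₀, p₀) t := by
        intro t
        funext e'
        unfold pr2
        cases e <;> cases e' <;> simp
      have e1 : ∀ S : P → Q, F₂ (Function.update S j₀ p₀) =
          (∑ k, if k = j₀ then 0 else
            a (nv y e) (plant S (j₀, p₀)) * b y (pr2 (!e) (j₀, p₀) (k, S k))) / L ^ 2 := by
        intro S
        simp only [hF₂]
        congr 1
        refine sum_congr rfl fun k _ => ?_
        by_cases hk : k = j₀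
        · simp [hk]
        · rw [if_neg hk, if_neg hk, Function.update_self, Function.update_of_ne hk, hpr]
          rfl
      rw [mn_congr e1]
      unfold G
      rw [div_div, ← sq]
      have e2 : mn (fun S : P → Q => (∑ k, if k = j₀ then 0 else
            a (nv y e) (plant S (j₀, p₀)) * b y (pr2 (!e) (j₀, p₀) (k, S k))) / L ^ 2) =
          (∑ k, if k = j₀ then 0 else mn (fun S : P → Q =>
            a (nv y e) (plant S (j₀, p₀)) * b y (pr2 (!e) (j₀, p₀) (k, S k)))) / L ^ 2 := by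
        simp only [mn]
        rw [← sum_div, sum_comm, div_right_comm, sum_div]
        congr 1
        refine sum_congr rfl fun k _ => ?_
        split_ifs <;> simp
      exact e2
    rw [h2, h3, ← hMdef]
    field_simp
  -- sum over the cells
  rw [mn_on]
  refine le_trans (le_of_eq ?_) (mn_mono hcell)
  have hcard : ((Fintype.card (P × Q) : ℕ) : ℝ) = L * M := by
    rw [Fintype.card_prod]; push_cast; rfl
  rw [hcard]
  have hdiv : ∀ f : Fin 3 × Bool → ℝ, mn (fun c => f c / (L * M)) = mn f / (L * M) := by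
    intro f
    simp only [div_eq_mul_inv, mn_mul_right]
  rw [hdiv, mn_add, mn_add]
  congr 2
  -- reindex `e ↦ !e`
  have hswap := mn_equiv (Equiv.prodCongr (Equiv.refl (Fin 3)) Equiv.boolNot)
    (fun c : Fin 3 × Bool =>
      G j₀ (fun S => a (nv c.1 (!c.2)) (plant S (j₀, p₀))) (fun t => b c.1 (pr2 c.2 (j₀, p₀) t)))
  rw [← hswap]
  refine mn_congr fun c => ?_
  simp

lemma zeta_ge (a : Fin 3 → (P → Q) → ℝ) (b : Fin 3 → (Bool → P × Q) → ℝ)
    (ha : ∀ x S, 0 ≤ a x S) (hb : ∀ y t, 0 ≤ b y t) (ω₀ : P × Q) :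
    mn (fun c : Fin 3 × Bool => mn (fun S => a c.1 (plant S ω₀)) *
      mn (fun t => b c.1 (pr2 c.2 ω₀ t))) / Fintype.card (P × Q) ≤ mn (gζ a b) := by
  have h1 : ∀ ω : Om P Q, (if ω.2.2.1 = ω₀ then gζ a b ω else 0) ≤ gζ a b ω := by
    intro ω; split_ifs
    · exact le_rfl
    · exact mul_nonneg (ha _ _) (hb _ _)
  refine le_trans (le_of_eq ?_) (mn_mono h1)
  rw [mn_om_single]
  congr 1
  refine mn_congr fun c => ?_
  simp only [gζ]
  have : ∀ S : P → Q, mn (fun t => a c.1 (plant S ω₀) * b c.1 (pr2 c.2 ω₀ t)) =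
      a c.1 (plant S ω₀) * mn (fun t => b c.1 (pr2 c.2 ω₀ t)) := fun S => mn_mul_left _ _
  rw [mn_congr this, mn_mul_right]

/-- The main (star) part. -/
lemma star_main (a : Fin 3 → (P → Q) → ℝ) (b : Fin 3 → (Bool → P × Q) → ℝ)
    (ha : ∀ x S, 0 ≤ a x S) (hb : ∀ y t, 0 ≤ b y t) (ω₀ : P × Q)
    {K C ε η τ r : ℝ} (hK : 0 ≤ K) (hη : 0 ≤ η) (hε1 : ε ≤ 1) (hε0 : 0 ≤ ε)
    (hgen : ∀ (a : (P → Q) → ℝ) (b : P × Q → ℝ), (∀ S, 0 ≤ a S) → (∀ t, 0 ≤ b t) →
      ent a ≤ C * mn a → ent b ≤ C * mn b → (1 - ε) * (mn a * mn b) ≤ G ω₀.1 a b)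
    (hτ : Real.exp (-(K * (1 - ε))) ≤ τ) (hτr : Real.exp (-r) ≤ τ)
    (hr : r ^ 2 ≤ K * (1 - ε) * η) (hr0 : 0 ≤ r) :
    (K + Real.log (Fintype.card (P × Q)) - K * ε -
        Real.log ((2 + 4 * τ) / 6 + Real.exp (-(C - K)))) *
      mn (fun ω : Om P Q => if ω.2.2.1 = ω₀ then gμ a b ω else 0) ≤
    ent (fun ω : Om P Q => if ω.2.2.1 = ω₀ then gμ a b ω else 0) + K * mn (gν a b) +
      η * mn (gζ a b) := by
  set A : Fin 3 → (P → Q) → ℝ := fun x S => a x (plant S ω₀) with hA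
  set D : Fin 3 × Bool → (P × Q) → ℝ := fun c t => b c.1 (pr2 c.2 ω₀ t) with hD
  have hA0 : ∀ x S, 0 ≤ A x S := fun x S => ha _ _
  have hD0 : ∀ c t, 0 ≤ D c t := fun c t => hb _ _
  set N : ℝ := (Fintype.card (P × Q) : ℝ) with hN
  have hNpos : 0 < N := by
    rw [hN]; exact_mod_cast Fintype.card_pos
  set cc : Fin 3 × Bool → ℝ := fun c => mn (A (nv c.1 c.2)) * mn (D c) with hcc
  have hcc0 : ∀ c, 0 ≤ cc c := fun c => mul_nonneg (mn_nonneg (hA0 _)) (mn_nonneg (hD0 _))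
  set B := mn cc with hB
  have hB0 : 0 ≤ B := mn_nonneg hcc0
  -- mean of g₁
  have hm1 : mn (fun ω : Om P Q => if ω.2.2.1 = ω₀ then gμ a b ω else 0) = B / N := by
    rw [mn_om_single]
    congr 1
    refine mn_congr fun c => ?_
    simp only [gμ]
    have : ∀ S : P → Q, mn (fun t => a (nv c.1 c.2) (plant S ω₀) * b c.1 (pr2 c.2 ω₀ t)) =
        A (nv c.1 c.2) S * mn (D c) := fun S => mn_mul_left _ _
    rw [mn_congr this, mn_mul_right]
  set X := mn (fun c => mn (D c) * ent (A (nv c.1 c.2)) + mn (A (nv c.1 c.2)) * ent (D c) +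
      cc c * Real.log (cc c)) with hX
  have hlogm : mn (fun ω : Om P Q => (if ω.2.2.1 = ω₀ then gμ a b ω else 0) *
      Real.log (if ω.2.2.1 = ω₀ then gμ a b ω else 0)) = X / N := by
    have e1 : ∀ ω : Om P Q, (if ω.2.2.1 = ω₀ then gμ a b ω else 0) *
        Real.log (if ω.2.2.1 = ω₀ then gμ a b ω else 0) =
        if ω.2.2.1 = ω₀ then gμ a b ω * Real.log (gμ a b ω) else 0 := by
      intro ω; split_ifs <;> simp
    rw [mn_congr e1, mn_om_single (fun ω => gμ a b ω * Real.log (gμ a b ω))]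
    congr 1
    refine mn_congr fun c => ?_
    simp only [gμ]
    exact ent_mul (A (nv c.1 c.2)) (D c)
  have hent : ent (fun ω : Om P Q => if ω.2.2.1 = ω₀ then gμ a b ω else 0) =
      (X - B * Real.log B + B * Real.log N) / N := by
    unfold ent
    rw [hm1, hlogm]
    rcases hB0.eq_or_lt with h | h
    · rw [← h]; simp
    · rw [Real.log_div h.ne' hNpos.ne']
      ring
  -- cell inequality averaged
  set wt : Fin 3 × Bool → ℝ := fun c => cw (K * (1 - ε)) η (tm C (A (nv c.1 c.2)))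
    (tm C (A (nv c.1 (!c.2)))) (tm C (A c.1)) + Real.exp (-(C - K)) with hwt
  have hwt0 : ∀ c, 0 < wt c := fun c => add_pos_of_nonneg_of_pos (cw_nonneg _ _ _ _ _)
    (Real.exp_pos _)
  have hcell : ∀ c : Fin 3 × Bool, cc c * (-Real.log (wt c)) - K * ε * cc c ≤
      mn (D c) * ent (A (nv c.1 c.2)) + mn (A (nv c.1 c.2)) * ent (D c) +
      K * (G ω₀.1 (A (nv c.1 c.2)) (D c) + G ω₀.1 (A (nv c.1 (!c.2))) (D c)) +
      η * (mn (A c.1) * mn (D c)) - K * cc c := fun c =>
    cell_ineq ω₀.1 hK hη hε1 hε0 hgen (A (nv c.1 c.2)) (A (nv c.1 (!c.2))) (A c.1) (D c)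
      (hA0 _) (hA0 _) (hA0 _) (hD0 _)
  have hcell2 := mn_mono hcell
  have hgibbs := gibbs cc wt hcc0 (fun c => (hwt0 c).le) (fun c h => absurd h (hwt0 c).ne')
  have hwmn : mn wt ≤ (2 + 4 * τ) / 6 + Real.exp (-(C - K)) := by
    rw [hwt, mn_add, mn_const]
    have := cw_cells (by nlinarith : 0 ≤ K * (1 - ε)) hη hτ hτr hr hr0 (fun x => tm C (A x))
      (fun x => tm_nonneg C (hA0 x))
    linarith
  have hwpos : 0 < mn wt := mn_pos_of (a := (0, true)) (fun c => (hwt0 c).le) (hwt0 _)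
  have hlogw := Real.log_le_log hwpos hwmn
  have hlogw2 := mul_le_mul_of_nonneg_left hlogw hB0
  have hnu := nu_ge a b ha hb ω₀
  have hze := zeta_ge a b ha hb ω₀
  have hnu2 := mul_le_mul_of_nonneg_left hnu hK
  have hze2 := mul_le_mul_of_nonneg_left hze hη
  have e_nu : ∀ c : Fin 3 × Bool,
      G ω₀.1 (fun S => a (nv c.1 c.2) (plant S ω₀)) (fun t => b c.1 (pr2 c.2 ω₀ t)) +
      G ω₀.1 (fun S => a (nv c.1 (!c.2)) (plant S ω₀)) (fun t => b c.1 (pr2 c.2 ω₀ t)) =
      G ω₀.1 (A (nv c.1 c.2)) (D c) + G ω₀.1 (A (nv c.1 (!c.2))) (D c) := fun c => rfl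
  set Gs : ℝ := mn (fun c : Fin 3 × Bool =>
    G ω₀.1 (A (nv c.1 c.2)) (D c) + G ω₀.1 (A (nv c.1 (!c.2))) (D c)) with hGs
  set Zs : ℝ := mn (fun c : Fin 3 × Bool => mn (A c.1) * mn (D c)) with hZs
  have hsum1 : mn (fun c : Fin 3 × Bool => cc c * (-Real.log (wt c)) - K * ε * cc c) =
      -mn (fun c => cc c * Real.log (wt c)) - K * ε * B := by
    rw [mn_sub, mn_mul_left, ← mn_neg]
    congr 1
    exact mn_congr fun c => by ring
  have hsum2 : mn (fun c : Fin 3 × Bool => mn (D c) * ent (A (nv c.1 c.2)) +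
      mn (A (nv c.1 c.2)) * ent (D c) +
      K * (G ω₀.1 (A (nv c.1 c.2)) (D c) + G ω₀.1 (A (nv c.1 (!c.2))) (D c)) +
      η * (mn (A c.1) * mn (D c)) - K * cc c) =
      (X - mn (fun c => cc c * Real.log (cc c))) + K * Gs + η * Zs - K * B := by
    rw [mn_sub, mn_add, mn_add, mn_mul_left, mn_mul_left, mn_mul_left, hX]
    rw [mn_add (fun c => mn (D c) * ent (A (nv c.1 c.2)) + mn (A (nv c.1 c.2)) * ent (D c))]
    ring
  rw [hsum1, hsum2] at hcell2
  rw [hm1, hent]
  have hfin : (K + Real.log N - K * ε - Real.log ((2 + 4 * τ) / 6 + Real.exp (-(C - K)))) * B ≤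
      (X - B * Real.log B + B * Real.log N) + K * Gs + η * Zs := by
    unfold ent at hgibbs
    nlinarith [hgibbs, hcell2, hlogw2]
  have hfin2 := div_le_div_of_nonneg_right hfin hNpos.le
  have h5 : K * (Gs / N) ≤ K * mn (gν a b) := hnu2
  have h6 : η * (Zs / N) ≤ η * mn (gζ a b) := hze2
  have h7 : (K + Real.log N - K * ε - Real.log ((2 + 4 * τ) / 6 + Real.exp (-(C - K)))) * (B / N)
      = ((K + Real.log N - K * ε - Real.log ((2 + 4 * τ) / 6 + Real.exp (-(C - K)))) * B) / N := by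
    ring
  rw [h7]
  refine hfin2.trans ?_
  have h8 : ((X - B * Real.log B + B * Real.log N) + K * Gs + η * Zs) / N =
      (X - B * Real.log B + B * Real.log N) / N + K * (Gs / N) + η * (Zs / N) := by ring
  rw [h8]
  linarith

end H644R2
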