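import Pool.Agent.H644R2.Leaf

/-!
The leaf inequality, all cases.
-/

open Finset

namespace H644R2

variable {P Q : Type*} [Fintype P] [Fintype Q] [DecidableEq P] [DecidableEq Q]
  [Nonempty P] [Nonempty Q]

lemma mn_plant (ψ : (P → Q) → ℝ) : mn (fun S => mn (fun w => ψ (plant S w))) = mn ψ := by
  have h1 : ∀ S : P → Q, mn (fun w : P × Q => ψ (plant S w)) =
      mn (fun j => mn (fun q => ψ (Function.update S j q))) := by
    intro S
    rw [mn_prod]
    rfl
  rw [mn_congr h1, mn_comm]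
  have h2 : ∀ j : P, mn (fun S => mn (fun q => ψ (Function.update S j q))) = mn ψ :=
    fun j => mn_update j ψ
  rw [mn_congr h2, mn_const]

lemma mn_om_plant_t (ψ : (P → Q) → ℝ) (χ : P × Q → ℝ) :
    mn (fun ω : Om P Q => ψ (plant ω.2.1 ω.2.2.1) * χ ω.2.2.2) = mn ψ * mn χ := by
  rw [mn_om]
  have h1 : ∀ c : Fin 3 × Bool, mn (fun S : P → Q => mn (fun w => mn (fun t =>
      ψ (plant S w) * χ t))) = mn ψ * mn χ := by
    intro c
    rw [← mn_plant ψ, ← mn_mul_right]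
    refine mn_congr fun S => ?_
    rw [← mn_mul_right]
    refine mn_congr fun w => ?_
    rw [mn_mul_left]
  rw [mn_congr h1, mn_const]

lemma mn_om_plant (ψ : (P → Q) → ℝ) :
    mn (fun ω : Om P Q => ψ (plant ω.2.1 ω.2.2.1)) = mn ψ := by
  have := mn_om_plant_t ψ (fun _ : P × Q => (1 : ℝ))
  rw [mn_const] at this
  simpa using this

lemma mn_om_w_t (ψ χ : P × Q → ℝ) :
    mn (fun ω : Om P Q => ψ ω.2.2.1 * χ ω.2.2.2) = mn ψ * mn χ := by
  rw [mn_om]
  have h1 : ∀ S : P → Q, mn (fun w => mn (fun t => ψ w * χ t)) = mn ψ * mn χ := by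
    intro S
    rw [← mn_mul_right]
    refine mn_congr fun w => ?_
    rw [mn_mul_left]
  have h2 : ∀ c : Fin 3 × Bool, mn (fun S : P → Q => mn (fun w => mn (fun t => ψ w * χ t))) =
      mn ψ * mn χ := by
    intro c
    rw [mn_congr h1, mn_const]
  rw [mn_congr h2, mn_const]

omit [Nonempty P] in
lemma one_item (t : P × Q) :
    mn (fun S : P → Q => if S t.1 = t.2 then (1 : ℝ) else 0) = 1 / Fintype.card Q := by
  have := mn_ind_update t.1 t.2 (fun _ : P → Q => (1 : ℝ))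
  rw [this, mn_const]

omit [Nonempty P] in
lemma two_items (s t : P × Q) (hne : s ≠ t) :
    mn (fun S : P → Q => if S s.1 = s.2 ∧ S t.1 = t.2 then (1 : ℝ) else 0) ≤
      1 / (Fintype.card Q : ℝ) ^ 2 := by
  by_cases h : s.1 = t.1
  · have h2 : s.2 ≠ t.2 := fun h' => hne (Prod.ext h h')
    have : ∀ S : P → Q, (if S s.1 = s.2 ∧ S t.1 = t.2 then (1 : ℝ) else 0) = 0 := by
      intro S
      rw [if_neg]
      rintro ⟨h3, h4⟩
      rw [h] at h3
      exact h2 (h3.symm.trans h4)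
    rw [mn_congr this]
    have : mn (fun _ : P → Q => (0 : ℝ)) = 0 := by simp [mn]
    rw [this]; positivity
  · have h1 : ∀ S : P → Q, (if S s.1 = s.2 ∧ S t.1 = t.2 then (1 : ℝ) else 0) =
        if S s.1 = s.2 then (if S t.1 = t.2 then (1 : ℝ) else 0) else 0 := by
      intro S
      by_cases h1 : S s.1 = s.2 <;> by_cases h2 : S t.1 = t.2 <;> simp [h1, h2]
    rw [mn_congr h1, mn_ind_update s.1 s.2]
    have h2 : ∀ S : P → Q, (if Function.update S s.1 s.2 t.1 = t.2 then (1 : ℝ) else 0) =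
        if S t.1 = t.2 then (1 : ℝ) else 0 := by
      intro S
      rw [Function.update_of_ne (Ne.symm h)]
    rw [mn_congr h2, one_item, div_div, ← sq]

omit [DecidableEq P] [DecidableEq Q] [Nonempty Q] [Nonempty P] in
lemma mn_add3 {α : Type*} [Fintype α] (f g h : α → ℝ) :
    mn (fun x => f x + g x + h x) = mn f + mn g + mn h := by
  rw [mn_add (fun x => f x + g x) h, mn_add]

lemma mn_three (x y z : P × Q) :
    mn (fun w : P × Q => if w = x ∨ w = y ∨ w = z then (1 : ℝ) else 0) ≤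
      3 / Fintype.card (P × Q) := by
  have h1 : ∀ w : P × Q, (if w = x ∨ w = y ∨ w = z then (1 : ℝ) else 0) ≤
      (if w = x then (1 : ℝ) else 0) + (if w = y then (1 : ℝ) else 0) +
        (if w = z then (1 : ℝ) else 0) := by
    intro w
    by_cases h1 : w = x <;> by_cases h2 : w = y <;> by_cases h3 : w = z <;>
      simp only [h1, h2, h3, true_or, or_true, or_self, if_true, if_false] <;>
      (try split_ifs) <;> norm_num
  refine (mn_mono h1).trans (le_of_eq ?_)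
  rw [mn_add3, mn_single x (fun _ => (1 : ℝ)), mn_single y (fun _ => (1 : ℝ)),
    mn_single z (fun _ => (1 : ℝ))]
  ring

theorem leaf_ineq (a : Fin 3 → (P → Q) → ℝ) (b : Fin 3 → (Bool → P × Q) → ℝ)
    (ha : ∀ x S, 0 ≤ a x S) (hb : ∀ y t, 0 ≤ b y t)
    (hz : ∀ x S y t, 0 < a x S → 0 < b y t → Hit S t)
    {K C ε η τ r δ Λ : ℝ} (hK : 0 ≤ K) (hη : 0 ≤ η) (hε1 : ε ≤ 1) (hε0 : 0 ≤ ε) (hδ : 0 < δ)
    (hgen : ∀ (j₀ : P) (a : (P → Q) → ℝ) (b : P × Q → ℝ), (∀ S, 0 ≤ a S) → (∀ t, 0 ≤ b t) →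
      ent a ≤ C * mn a → ent b ≤ C * mn b → (1 - ε) * (mn a * mn b) ≤ G j₀ a b)
    (hτ : Real.exp (-(K * (1 - ε))) ≤ τ) (hτr : Real.exp (-r) ≤ τ)
    (hr : r ^ 2 ≤ K * (1 - ε) * η) (hr0 : 0 ≤ r)
    (hΛ : Λ + Real.log (1 + δ) ≤ Real.log (Fintype.card (P × Q)) - K * ε -
        Real.log ((2 + 4 * τ) / 6 + Real.exp (-(C - K))))
    (h4 : K + Λ ≤ Real.log ((Fintype.card Q : ℝ) ^ 2 / 4))
    (h9 : K + Λ ≤ Real.log ((Fintype.card (P × Q) : ℝ) ^ 2 / 9))
    (h2 : K + Λ + Real.log (1 + δ) + Real.log (1 / δ) ≤ Real.log ((Fintype.card Q : ℝ) ^ 2 / 2)) :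
    (K + Λ) * mn (gμ a b) ≤ ent (gμ a b) + K * mn (gν a b) + η * mn (gζ a b) := by
  classical
  have hg0 : ∀ ω, 0 ≤ gμ a b ω := fun ω => mul_nonneg (ha _ _) (hb _ _)
  have hm0 : 0 ≤ mn (gμ a b) := mn_nonneg hg0
  have hν0 : 0 ≤ K * mn (gν a b) :=
    mul_nonneg hK (mn_nonneg fun ω => mul_nonneg (ha _ _) (hb _ _))
  have hζ0 : 0 ≤ η * mn (gζ a b) :=
    mul_nonneg hη (mn_nonneg fun ω => mul_nonneg (ha _ _) (hb _ _))
  have hMpos : (0 : ℝ) < Fintype.card Q := by exact_mod_cast Fintype.card_pos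
  have hNpos : (0 : ℝ) < Fintype.card (P × Q) := by exact_mod_cast Fintype.card_pos
  -- positivity of the two factors on the support
  have hsupp : ∀ ω, gμ a b ω ≠ 0 → 0 < a (nv ω.1.1 ω.1.2) (plant ω.2.1 ω.2.2.1) ∧
      0 < b ω.1.1 (pr2 ω.1.2 ω.2.2.1 ω.2.2.2) := by
    intro ω h
    unfold gμ at h
    exact ⟨lt_of_le_of_ne (ha _ _) (fun h' => h (by rw [← h', zero_mul])),
      lt_of_le_of_ne (hb _ _) (fun h' => h (by rw [← h', mul_zero]))⟩
  set BB : Set (Bool → P × Q) := {t | ∃ y, 0 < b y t} with hBB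
  have hpr_e : ∀ (e : Bool) (w t : P × Q), pr2 e w t e = w := by
    intro e w t; simp [pr2]
  have hpr_ne : ∀ (e : Bool) (w t : P × Q), pr2 e w t (!e) = t := by
    intro e w t; cases e <;> simp [pr2]
  rcases structure_lemma BB with ⟨s, hs, t, ht, hdis⟩ | ⟨x, y, z, hxyz⟩ |
    ⟨ω₀, n₁, n₂, hne, hstar, ⟨s, hs, hs'⟩, ⟨t, ht, ht'⟩⟩
  · -- two disjoint pairs
    obtain ⟨ys, hys⟩ := hs
    obtain ⟨yt, hyt⟩ := ht
    have hp : mn (fun ω : Om P Q => if Hit (plant ω.2.1 ω.2.2.1) s ∧ Hit (plant ω.2.1 ω.2.2.1) t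
        then (1 : ℝ) else 0) ≤ 4 / (Fintype.card Q : ℝ) ^ 2 := by
      rw [mn_om_plant (fun S => if Hit S s ∧ Hit S t then (1 : ℝ) else 0)]
      have h1 : ∀ S : P → Q, (if Hit S s ∧ Hit S t then (1 : ℝ) else 0) ≤
          ((if S (s true).1 = (s true).2 ∧ S (t true).1 = (t true).2 then (1 : ℝ) else 0) +
          (if S (s true).1 = (s true).2 ∧ S (t false).1 = (t false).2 then (1 : ℝ) else 0)) +
          ((if S (s false).1 = (s false).2 ∧ S (t true).1 = (t true).2 then (1 : ℝ) else 0) +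
          (if S (s false).1 = (s false).2 ∧ S (t false).1 = (t false).2 then (1 : ℝ) else 0)) := by
        intro S
        have hh : ∀ u : Bool → P × Q, Hit S u ↔ (S (u true).1 = (u true).2 ∨
            S (u false).1 = (u false).2) := by
          intro u
          unfold Hit
          constructor
          · rintro ⟨e, he⟩
            cases e
            · exact Or.inr he
            · exact Or.inl he
          · rintro (h | h)
            · exact ⟨_, h⟩
            · exact ⟨_, h⟩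
        rw [hh s, hh t]
        by_cases c1 : S (s true).1 = (s true).2 <;> by_cases c2 : S (s false).1 = (s false).2 <;>
          by_cases c3 : S (t true).1 = (t true).2 <;>
          by_cases c4 : S (t false).1 = (t false).2 <;>
          simp only [c1, c2, c3, c4, true_and, and_true, and_false, false_and, or_true, true_or,
            or_false, false_or, and_self, or_self, if_true, if_false] <;> norm_num
      refine (mn_mono h1).trans ?_
      rw [mn_add, mn_add, mn_add]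
      have e1 := two_items (s true) (t true) (hdis _ _)
      have e2 := two_items (s true) (t false) (hdis _ _)
      have e3 := two_items (s false) (t true) (hdis _ _)
      have e4 := two_items (s false) (t false) (hdis _ _)
      have e5 : (4 : ℝ) / (Fintype.card Q : ℝ) ^ 2 = 4 * (1 / (Fintype.card Q : ℝ) ^ 2) := by ring
      rw [e5]
      linarith
    have key := ent_ge_of_supp (gμ a b) hg0
      (fun ω : Om P Q => Hit (plant ω.2.1 ω.2.2.1) s ∧ Hit (plant ω.2.1 ω.2.2.1) t)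
      (fun ω hω => by
        obtain ⟨h1, h2⟩ := hsupp ω hω
        exact ⟨hz _ _ _ _ h1 hys, hz _ _ _ _ h1 hyt⟩)
      (by positivity) hp
    have e1 : (1 : ℝ) / (4 / (Fintype.card Q : ℝ) ^ 2) = (Fintype.card Q : ℝ) ^ 2 / 4 := by
      rw [one_div, inv_div]
    rw [e1] at key
    have := mul_le_mul_of_nonneg_left h4 hm0
    linarith
  · -- three items
    have hp : mn (fun ω : Om P Q => if (ω.2.2.1 = x ∨ ω.2.2.1 = y ∨ ω.2.2.1 = z) ∧
        (ω.2.2.2 = x ∨ ω.2.2.2 = y ∨ ω.2.2.2 = z) then (1 : ℝ) else 0) ≤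
        9 / (Fintype.card (P × Q) : ℝ) ^ 2 := by
      have h1 : ∀ ω : Om P Q, (if (ω.2.2.1 = x ∨ ω.2.2.1 = y ∨ ω.2.2.1 = z) ∧
          (ω.2.2.2 = x ∨ ω.2.2.2 = y ∨ ω.2.2.2 = z) then (1 : ℝ) else 0) =
          (fun w : P × Q => if w = x ∨ w = y ∨ w = z then (1 : ℝ) else 0) ω.2.2.1 *
          (fun w : P × Q => if w = x ∨ w = y ∨ w = z then (1 : ℝ) else 0) ω.2.2.2 := by
        intro ω
        by_cases h1 : ω.2.2.1 = x ∨ ω.2.2.1 = y ∨ ω.2.2.1 = z <;>
          by_cases h2 : ω.2.2.2 = x ∨ ω.2.2.2 = y ∨ ω.2.2.2 = z <;>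
          simp only [h1, h2, and_self, and_true, and_false, if_true, if_false, mul_one, mul_zero]
      rw [mn_congr h1, mn_om_w_t (fun w : P × Q => if w = x ∨ w = y ∨ w = z then (1 : ℝ) else 0)
        (fun w : P × Q => if w = x ∨ w = y ∨ w = z then (1 : ℝ) else 0)]
      have h3 := mn_three x y z
      have h30 : 0 ≤ mn (fun w : P × Q => if w = x ∨ w = y ∨ w = z then (1 : ℝ) else 0) :=
        mn_nonneg fun w => by split_ifs <;> norm_num
      calc _ ≤ (3 / (Fintype.card (P × Q) : ℝ)) * (3 / (Fintype.card (P × Q) : ℝ)) :=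
            mul_le_mul h3 h3 h30 (by positivity)
        _ = _ := by ring
    have key := ent_ge_of_supp (gμ a b) hg0
      (fun ω : Om P Q => (ω.2.2.1 = x ∨ ω.2.2.1 = y ∨ ω.2.2.1 = z) ∧
        (ω.2.2.2 = x ∨ ω.2.2.2 = y ∨ ω.2.2.2 = z))
      (fun ω hω => by
        obtain ⟨h1, h2⟩ := hsupp ω hω
        have h3 := hxyz _ ⟨_, h2⟩ ω.1.2
        have h4 := hxyz _ ⟨_, h2⟩ (!ω.1.2)
        rw [hpr_e] at h3
        rw [hpr_ne] at h4
        exact ⟨h3, h4⟩)
      (by positivity) hp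
    have e1 : (1 : ℝ) / (9 / (Fintype.card (P × Q) : ℝ) ^ 2) =
        (Fintype.card (P × Q) : ℝ) ^ 2 / 9 := by
      rw [one_div, inv_div]
    rw [e1] at key
    have := mul_le_mul_of_nonneg_left h9 hm0
    linarith
  · -- star
    obtain ⟨ys, hys⟩ := hs
    obtain ⟨yt, hyt⟩ := ht
    set g₁ : Om P Q → ℝ := fun ω => if ω.2.2.1 = ω₀ then gμ a b ω else 0 with hg₁
    set g₂ : Om P Q → ℝ := fun ω => if ω.2.2.1 = ω₀ then 0 else gμ a b ω with hg₂
    have hg₁0 : ∀ ω, 0 ≤ g₁ ω := fun ω => by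
      simp only [hg₁]; split_ifs
      · exact hg0 ω
      · exact le_rfl
    have hg₂0 : ∀ ω, 0 ≤ g₂ ω := fun ω => by
      simp only [hg₂]; split_ifs
      · exact le_rfl
      · exact hg0 ω
    have hsum : ∀ ω, gμ a b ω = g₁ ω + g₂ ω := fun ω => by
      simp only [hg₁, hg₂]; split_ifs <;> simp
    have hdisj : ∀ ω, g₁ ω = 0 ∨ g₂ ω = 0 := fun ω => by
      simp only [hg₁, hg₂]; split_ifs <;> simp
    have hsplit := ent_split (gμ a b) g₁ g₂ hg₁0 hg₂0 hsum hdisj hδ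
    have hmsum : mn (gμ a b) = mn g₁ + mn g₂ := by
      rw [mn_congr hsum, mn_add]
    have hmain := star_main a b ha hb ω₀ hK hη hε1 hε0 (hgen ω₀.1) hτ hτr hr hr0
    -- support of g₂
    have hp : mn (fun ω : Om P Q => if ω.2.2.2 = ω₀ ∧
        ((plant ω.2.1 ω.2.2.1) ω₀.1 = ω₀.2 ∨
        ((plant ω.2.1 ω.2.2.1) n₁.1 = n₁.2 ∧ (plant ω.2.1 ω.2.2.1) n₂.1 = n₂.2))
        then (1 : ℝ) else 0) ≤ 2 / (Fintype.card Q : ℝ) ^ 2 := by
      have h1 : ∀ ω : Om P Q, (if ω.2.2.2 = ω₀ ∧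
          ((plant ω.2.1 ω.2.2.1) ω₀.1 = ω₀.2 ∨
          ((plant ω.2.1 ω.2.2.1) n₁.1 = n₁.2 ∧ (plant ω.2.1 ω.2.2.1) n₂.1 = n₂.2))
          then (1 : ℝ) else 0) ≤
          (if (plant ω.2.1 ω.2.2.1) ω₀.1 = ω₀.2 then (1 : ℝ) else 0) *
            (if ω.2.2.2 = ω₀ then (1 : ℝ) else 0) +
          (if (plant ω.2.1 ω.2.2.1) n₁.1 = n₁.2 ∧ (plant ω.2.1 ω.2.2.1) n₂.1 = n₂.2
            then (1 : ℝ) else 0) := by
        intro ω
        by_cases c1 : ω.2.2.2 = ω₀ <;> by_cases c2 : (plant ω.2.1 ω.2.2.1) ω₀.1 = ω₀.2 <;>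
          by_cases c3 : (plant ω.2.1 ω.2.2.1) n₁.1 = n₁.2 ∧ (plant ω.2.1 ω.2.2.1) n₂.1 = n₂.2 <;>
          simp [c1, c2, c3]
      refine (mn_mono h1).trans ?_
      have e1 : mn (fun t : P × Q => if t = ω₀ then (1 : ℝ) else 0) =
          1 / Fintype.card (P × Q) := mn_single ω₀ (fun _ => (1 : ℝ))
      rw [mn_add, mn_om_plant_t (fun S => if S ω₀.1 = ω₀.2 then (1 : ℝ) else 0)
        (fun t => if t = ω₀ then (1 : ℝ) else 0), e1, one_item,
        mn_om_plant (fun S => if S n₁.1 = n₁.2 ∧ S n₂.1 = n₂.2 then (1 : ℝ) else 0)]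
      have e2 := two_items n₁ n₂ hne
      have e3 : (Fintype.card Q : ℝ) ≤ Fintype.card (P × Q) := by
        rw [Fintype.card_prod]
        push_cast
        have : (1 : ℝ) ≤ Fintype.card P := by exact_mod_cast Fintype.card_pos
        nlinarith
      have e4 : (1 : ℝ) / Fintype.card Q * (1 / Fintype.card (P × Q)) ≤
          1 / (Fintype.card Q : ℝ) ^ 2 := by
        rw [div_mul_div_comm, one_mul, sq]
        exact one_div_le_one_div_of_le (by positivity)
          (mul_le_mul_of_nonneg_left e3 hMpos.le)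
      have e5 : (2 : ℝ) / (Fintype.card Q : ℝ) ^ 2 = 2 * (1 / (Fintype.card Q : ℝ) ^ 2) := by ring
      rw [e5]
      linarith
    have hitcase : ∀ S : P → Q, Hit S s → Hit S t →
        S ω₀.1 = ω₀.2 ∨ (S n₁.1 = n₁.2 ∧ S n₂.1 = n₂.2) := by
      rintro S ⟨e, he⟩ ⟨f, hf⟩
      rcases hs' e with h1 | h1
      · left; rw [h1] at he; exact he
      · rcases ht' f with h2 | h2
        · left; rw [h2] at hf; exact hf
        · right
          rw [h1] at he; rw [h2] at hf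
          exact ⟨he, hf⟩
    have key := ent_ge_of_supp g₂ hg₂0
      (fun ω : Om P Q => ω.2.2.2 = ω₀ ∧
        ((plant ω.2.1 ω.2.2.1) ω₀.1 = ω₀.2 ∨
        ((plant ω.2.1 ω.2.2.1) n₁.1 = n₁.2 ∧ (plant ω.2.1 ω.2.2.1) n₂.1 = n₂.2)))
      (fun ω hω => by
        by_cases hw : ω.2.2.1 = ω₀
        · exact absurd (by simp [hg₂, hw]) hω
        · have hω' : gμ a b ω ≠ 0 := by simpa [hg₂, hw] using hω
          obtain ⟨h1, h2⟩ := hsupp ω hω'
          refine ⟨?_, hitcase _ (hz _ _ _ _ h1 hys) (hz _ _ _ _ h1 hyt)⟩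
          obtain ⟨e', he'⟩ := hstar _ ⟨_, h2⟩
          by_cases hee : e' = ω.1.2
          · rw [hee, hpr_e] at he'; exact absurd he' hw
          · have : e' = !ω.1.2 := by
              revert hee; generalize ω.1.2 = f
              cases e' <;> cases f <;> simp
            rw [this, hpr_ne] at he'
            exact he')
      (by positivity) hp
    have e1 : (1 : ℝ) / (2 / (Fintype.card Q : ℝ) ^ 2) = (Fintype.card Q : ℝ) ^ 2 / 2 := by
      rw [one_div, inv_div]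
    rw [e1] at key
    have hm1 : 0 ≤ mn g₁ := mn_nonneg hg₁0
    have hm2 : 0 ≤ mn g₂ := mn_nonneg hg₂0
    have k1 := mul_le_mul_of_nonneg_left hΛ hm1
    have k2 := mul_le_mul_of_nonneg_left h2 hm2
    rw [hmsum] at hsplit ⊢
    have hmain' : (K + Real.log (Fintype.card (P × Q)) - K * ε -
        Real.log ((2 + 4 * τ) / 6 + Real.exp (-(C - K)))) * mn g₁ ≤
      ent g₁ + K * mn (gν a b) + η * mn (gζ a b) := hmain
    nlinarith [hsplit, hmain', key, k1, k2]

end H644R2
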