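import Pool.Agent.H644R2.LeafIneq

/-!
Numerical instantiation of the leaf inequality.
-/

open Finset

namespace H644R2

lemma exp_neg_nine : Real.exp (-9) ≤ 1 / 1000 := by
  have h1 : (2.7 : ℝ) ≤ Real.exp 1 := by
    have := Real.exp_one_gt_d9
    linarith
  have h2 : Real.exp 9 = Real.exp 1 ^ 9 := by
    rw [← Real.exp_nat_mul]; norm_num
  have h3 : (1000 : ℝ) ≤ Real.exp 9 := by
    rw [h2]
    calc (1000 : ℝ) ≤ 2.7 ^ 9 := by norm_num
      _ ≤ Real.exp 1 ^ 9 := pow_le_pow_left₀ (by norm_num) h1 9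
  rw [Real.exp_neg, ← one_div]
  exact one_div_le_one_div_of_le (by norm_num) h3

theorem exists_params : ∃ lam kap : ℕ,
    ∀ (a : Fin 3 → (Fin (2 ^ lam) → Fin (2 ^ kap)) → ℝ)
      (b : Fin 3 → (Bool → Fin (2 ^ lam) × Fin (2 ^ kap)) → ℝ),
      (∀ x S, 0 ≤ a x S) → (∀ y t, 0 ≤ b y t) →
      (∀ x S y t, 0 < a x S → 0 < b y t → Hit S t) →
      (1000 + Real.log (2.9 * 2 ^ (lam + kap))) * mn (gμ a b) ≤
        ent (gμ a b) + 1000 * mn (gν a b) + (1 / 10) * mn (gζ a b) := by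
  -- the inner genericity parameters
  obtain ⟨lam, hlam⟩ := pow_unbounded_of_one_lt
    ((1 + 2 * 1010 / (1 / 200000 : ℝ) ^ 2) * Real.exp (1011 * 200000)) (one_lt_two (α := ℝ))
  obtain ⟨kap, hkap⟩ := pow_unbounded_of_one_lt
    (1000 * Real.exp 1000 * 2 ^ lam) (one_lt_two (α := ℝ))
  refine ⟨lam, kap, ?_⟩
  intro a b ha hb hz
  haveI : Nonempty (Fin (2 ^ lam)) := ⟨⟨0, by positivity⟩⟩
  haveI : Nonempty (Fin (2 ^ kap)) := ⟨⟨0, by positivity⟩⟩
  have hL : (Fintype.card (Fin (2 ^ lam)) : ℝ) = 2 ^ lam := by simp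
  have hM : (Fintype.card (Fin (2 ^ kap)) : ℝ) = 2 ^ kap := by simp
  have hN : (Fintype.card (Fin (2 ^ lam) × Fin (2 ^ kap)) : ℝ) = 2 ^ lam * 2 ^ kap := by
    simp
  have hgen : ∀ (j₀ : Fin (2 ^ lam)) (a : (Fin (2 ^ lam) → Fin (2 ^ kap)) → ℝ)
      (b : Fin (2 ^ lam) × Fin (2 ^ kap) → ℝ), (∀ S, 0 ≤ a S) → (∀ t, 0 ≤ b t) →
      ent a ≤ 1010 * mn a → ent b ≤ 1010 * mn b →
      (1 - 1 / 100000) * (mn a * mn b) ≤ G j₀ a b := by
    intro j₀ a b ha hb h1 h2
    have := generic j₀ a b ha hb (C := 1010) (ε := 1 / 200000) (s := 1011 * 200000)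
      (by norm_num) (by norm_num) (by norm_num) (by norm_num) h1 h2 (by rw [hL]; exact hlam.le)
    refine le_trans (le_of_eq ?_) this
    norm_num
  set L : ℝ := 2 ^ lam with hLd
  set M : ℝ := 2 ^ kap with hMd
  have hL1 : 1 ≤ L := one_le_pow₀ one_le_two
  have hM1 : 1 ≤ M := one_le_pow₀ one_le_two
  have he1 : 1 ≤ Real.exp 1000 := Real.one_le_exp (by norm_num)
  have hbig : 1000 * Real.exp 1000 * L ≤ M := hkap.le
  have hpow : (2 : ℝ) ^ (lam + kap) = L * M := pow_add _ _ _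
  rw [hpow]
  have hLM : 0 < L * M := by positivity
  have hlogK : ∀ c : ℝ, 0 < c → (1000 : ℝ) + Real.log c = Real.log (Real.exp 1000 * c) := by
    intro c hc
    rw [Real.log_mul (Real.exp_pos _).ne' hc.ne', Real.log_exp]
  refine leaf_ineq a b ha hb hz (K := 1000) (C := 1010) (ε := 1 / 100000) (η := 1 / 10)
    (τ := 1 / 1000) (r := 9) (δ := 1 / 100) (Λ := Real.log (2.9 * (L * M)))
    (by norm_num) (by norm_num) (by norm_num) (by norm_num) (by norm_num) hgen ?_ exp_neg_nine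
    (by norm_num) (by norm_num) ?_ ?_ ?_ ?_
  · refine le_trans (Real.exp_le_exp.2 ?_) exp_neg_nine
    norm_num
  · rw [hN, Real.log_mul (by norm_num) hLM.ne']
    have h1 : Real.log ((2 + 4 * (1 / 1000)) / 6 + Real.exp (-(1010 - 1000))) ≤
        Real.log 0.335 := by
      refine Real.log_le_log (by positivity) ?_
      have e1 : Real.exp (-(1010 - 1000)) ≤ 1 / 1000 :=
        (Real.exp_le_exp.2 (by norm_num)).trans exp_neg_nine
      have e2 : (2 + 4 * (1 / 1000)) / 6 + 1 / 1000 ≤ (0.335 : ℝ) := by norm_num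
      linarith
    have h2 : Real.log 2.9 + Real.log (1 + 1 / 100) + Real.log 0.335 ≤ -(1 / 100) := by
      rw [← Real.log_mul (by norm_num) (by norm_num), ← Real.log_mul (by norm_num) (by norm_num)]
      have e1 := Real.log_le_sub_one_of_pos (x := 2.9 * (1 + 1 / 100) * 0.335) (by norm_num)
      have e2 : (2.9 * (1 + 1 / 100) * 0.335 : ℝ) - 1 ≤ -(1 / 100) := by norm_num
      linarith
    have h3 : (1000 : ℝ) * (1 / 100000) = 1 / 100 := by norm_num
    rw [h3]
    linarith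
  · rw [hM, hlogK _ (by positivity)]
    refine Real.log_le_log (by positivity) ?_
    have : 0 ≤ Real.exp 1000 * L := by positivity
    nlinarith
  · rw [hN, hlogK _ (by positivity)]
    refine Real.log_le_log (by positivity) ?_
    have h1 : M ≤ L * M := by nlinarith
    have h2 : 1000 * Real.exp 1000 ≤ M := by nlinarith [Real.exp_pos 1000]
    nlinarith [Real.exp_pos 1000]
  · rw [hM, hlogK _ (by positivity), ← Real.log_mul (by positivity) (by norm_num),
      ← Real.log_mul (by positivity) (by norm_num)]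
    refine Real.log_le_log (by positivity) ?_
    have : 0 ≤ Real.exp 1000 * L := by positivity
    norm_num
    nlinarith

end H644R2
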