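import Pool.Agent.H644R2.LB

/-!
The amortised upper bound.
-/

open Finset

namespace H644R2

section send
variable {X Y O : Type}

/-- Alice sends the `k` bits `f x`, then the protocol continues with `c (f x)`. -/
noncomputable def sendA : (k : ℕ) → (X → (Fin k → Bool)) → ((Fin k → Bool) → Prot X Y O) →
    Prot X Y O
  | 0, _, c => c (fun i => i.elim0)
  | k + 1, f, c => Prot.alice (fun x => if f x 0 then 1 else 0)
      (sendA k (fun x i => f x i.succ) (fun w => c (Fin.cons false w)))
      (sendA k (fun x i => f x i.succ) (fun w => c (Fin.cons true w)))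

/-- Bob sends the `k` bits `f y`, then the protocol continues with `c (f y)`. -/
noncomputable def sendB : (k : ℕ) → (Y → (Fin k → Bool)) → ((Fin k → Bool) → Prot X Y O) →
    Prot X Y O
  | 0, _, c => c (fun i => i.elim0)
  | k + 1, f, c => Prot.bob (fun x => if f x 0 then 1 else 0)
      (sendB k (fun x i => f x i.succ) (fun w => c (Fin.cons false w)))
      (sendB k (fun x i => f x i.succ) (fun w => c (Fin.cons true w)))

lemma cons_succ {k : ℕ} (g : Fin (k + 1) → Bool) :
    (Fin.cons (g 0) (fun i : Fin k => g i.succ) : Fin (k + 1) → Bool) = g := by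
  funext i
  refine Fin.cases ?_ (fun j => ?_) i
  · simp
  · simp

lemma ex_sendA (k : ℕ) (f : X → (Fin k → Bool)) (c : (Fin k → Bool) → Prot X Y O) (x : X) (y : Y)
    (φ : O → ℕ → ℝ) :
    (sendA k f c).ex x y φ = (c (f x)).ex x y (fun o n => φ o (n + k)) := by
  induction k generalizing φ with
  | zero =>
    have : f x = fun i => i.elim0 := by funext i; exact i.elim0
    rw [this]
    rfl
  | succ k ih =>
    rw [sendA, ex_alice, ih, ih]
    have hc := cons_succ (f x)
    have hn : ∀ n : ℕ, n + k + 1 = n + (k + 1) := fun n => by ring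
    cases h : f x 0 with
    | false =>
      rw [h] at hc
      simp only [hc, hn]
      simp
    | true =>
      rw [h] at hc
      simp only [hc, hn]
      simp

lemma ex_sendB (k : ℕ) (f : Y → (Fin k → Bool)) (c : (Fin k → Bool) → Prot X Y O) (x : X) (y : Y)
    (φ : O → ℕ → ℝ) :
    (sendB k f c).ex x y φ = (c (f y)).ex x y (fun o n => φ o (n + k)) := by
  induction k generalizing φ with
  | zero =>
    have : f y = fun i => i.elim0 := by funext i; exact i.elim0
    rw [this]
    rfl
  | succ k ih =>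
    rw [sendB, ex_bob, ih, ih]
    have hc := cons_succ (f y)
    have hn : ∀ n : ℕ, n + k + 1 = n + (k + 1) := fun n => by ring
    cases h : f y 0 with
    | false =>
      rw [h] at hc
      simp only [hc, hn]
      simp
    | true =>
      rw [h] at hc
      simp only [hc, hn]
      simp

lemma leaf_nonneg (T : Prot X Y O) {l : Leaf X Y O} (hl : l ∈ T.leaves) (x : X) (y : Y) :
    0 ≤ l.pr x y := by
  obtain ⟨α, β, hα, hβ, h⟩ := leaf_prod T l hl
  rw [h]; exact mul_nonneg (hα _) (hβ _)

lemma zeroError_of_ex [DecidableEq O] (T : Prot X Y O) (F : X → Y → O)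
    (h : ∀ x y, T.ex x y (fun o _ => if o = F x y then 0 else 1) = 0) : T.ZeroError F := by
  intro l hl x y hpos
  by_contra hne
  have h1 := h x y
  unfold Prot.ex at h1
  have h2 : l.pr x y * (if l.out = F x y then (0 : ℝ) else 1) ≤
      (T.leaves.map fun l => l.pr x y * (if l.out = F x y then (0 : ℝ) else 1)).sum := by
    refine List.single_le_sum ?_ _ (List.mem_map.2 ⟨l, hl, rfl⟩)
    intro z hz
    obtain ⟨l', hl', rfl⟩ := List.mem_map.1 hz
    exact mul_nonneg (leaf_nonneg T hl' x y) (by split_ifs <;> norm_num)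
  rw [h1, if_neg hne] at h2
  linarith

lemma cost_eq [Fintype X] [Fintype Y] (T : Prot X Y O) (μ : X → Y → ℝ) :
    T.cost μ = ∑ x, ∑ y, μ x y * T.ex x y (fun _ n => (n : ℝ)) := rfl

lemma ex_len_nonneg (T : Prot X Y O) (x : X) (y : Y) : 0 ≤ T.ex x y (fun _ n => (n : ℝ)) := by
  unfold Prot.ex
  refine List.sum_nonneg fun z hz => ?_
  obtain ⟨l', hl', rfl⟩ := List.mem_map.1 hz
  exact mul_nonneg (leaf_nonneg T hl' x y) (by positivity)

lemma cost_nonneg [Fintype X] [Fintype Y] (T : Prot X Y O) (μ : X → Y → ℝ)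
    (hμ : ∀ x y, 0 ≤ μ x y) : 0 ≤ T.cost μ := by
  rw [cost_eq]
  exact sum_nonneg fun x _ => sum_nonneg fun y _ => mul_nonneg (hμ x y) (ex_len_nonneg T x y)

lemma CCexp_le [Fintype X] [Fintype Y] (F : X → Y → O) (μ : X → Y → ℝ)
    (hμ : ∀ x y, 0 ≤ μ x y) (T : Prot X Y O) (hT : T.ZeroError F) : CCexp F μ ≤ T.cost μ :=
  csInf_le ⟨0, by rintro r ⟨T', _, rfl⟩; exact cost_nonneg T' μ hμ⟩ ⟨T, hT, rfl⟩

lemma exists_code (M : Type) [Fintype M] [Nonempty M] (k : ℕ) (h : Fintype.card M ≤ 2 ^ k) :
    ∃ (enc : M → (Fin k → Bool)) (dec : (Fin k → Bool) → M), ∀ m, dec (enc m) = m := by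
  classical
  have h1 : Fintype.card M ≤ Fintype.card (Fin k → Bool) := by simpa using h
  obtain ⟨e⟩ := Function.Embedding.nonempty_of_card_le h1
  exact ⟨e, Function.invFun e, Function.leftInverse_invFun e.injective⟩

/-- the trivial protocol -/
lemma exists_zeroError (m : ℕ) (F : (Fin m → Bool) → Y → Bool) :
    ∃ T : Prot (Fin m → Bool) Y Bool, T.ZeroError F := by
  refine ⟨sendA m (fun u => u) (fun uu => sendB 1 (fun v _ => F uu v)
    (fun o => Prot.out (o 0))), ?_⟩
  apply zeroError_of_ex
  intro x y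
  rw [ex_sendA, ex_sendB, ex_out]
  simp

end send

section hash

variable {n r : ℕ}

/-- the hash function `h` confuses `x` with another string that is compatible with `y` -/
def Coll (h : (Fin n → Fin 3) → (Fin r → Bool)) (x y : Fin n → Fin 3) : Prop :=
  ∃ x', x' ≠ x ∧ (∀ i, x' i ≠ y i) ∧ h x' = h x

lemma card_compat (y : Fin n → Fin 3) :
    (univ.filter fun x' : Fin n → Fin 3 => ∀ i, x' i ≠ y i).card = 2 ^ n := by
  have h1 : (univ.filter fun x' : Fin n → Fin 3 => ∀ i, x' i ≠ y i) =
      Fintype.piFinset (fun i => univ.erase (y i)) := by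
    ext x'
    simp [Fintype.mem_piFinset]
  rw [h1, Fintype.card_piFinset]
  simp

lemma mn_hash {x x' : Fin n → Fin 3} (hne : x' ≠ x) :
    mn (fun h : (Fin n → Fin 3) → (Fin r → Bool) => if h x' = h x then (1 : ℝ) else 0) =
      1 / 2 ^ r := by
  rw [← mn_update x']
  have h1 : ∀ h : (Fin n → Fin 3) → (Fin r → Bool),
      mn (fun q => if Function.update h x' q x' = Function.update h x' q x then (1 : ℝ) else 0) =
      1 / 2 ^ r := by
    intro h
    have h2 : ∀ q, (if Function.update h x' q x' = Function.update h x' q x then (1 : ℝ) else 0)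
        = if q = h x then (1 : ℝ) else 0 := by
      intro q
      rw [Function.update_self, Function.update_of_ne (Ne.symm hne)]
    rw [mn_congr h2, mn_single (h x) (fun _ => (1 : ℝ))]
    simp
  rw [mn_congr h1, mn_const]

open Classical in
lemma mn_coll_le (x y : Fin n → Fin 3) :
    mn (fun h : (Fin n → Fin 3) → (Fin r → Bool) => if Coll h x y then (1 : ℝ) else 0) ≤
      2 ^ n / 2 ^ r := by
  set s : Finset (Fin n → Fin 3) :=
    (univ.filter fun x' : Fin n → Fin 3 => ∀ i, x' i ≠ y i).erase x with hs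
  have h1 : ∀ h : (Fin n → Fin 3) → (Fin r → Bool), (if Coll h x y then (1 : ℝ) else 0) ≤
      ∑ x' ∈ s, if h x' = h x then (1 : ℝ) else 0 := by
    intro h
    split_ifs with hc
    · obtain ⟨x', hx1, hx2, hx3⟩ := hc
      have hmem : x' ∈ s := by
        simp only [hs, mem_erase, mem_filter, mem_univ, true_and]
        exact ⟨hx1, hx2⟩
      have := single_le_sum (f := fun x' => if h x' = h x then (1 : ℝ) else 0)
        (fun i _ => by split_ifs <;> norm_num) hmem
      simpa [hx3] using this
    · exact sum_nonneg fun i _ => by split_ifs <;> norm_num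
  refine (mn_mono h1).trans ?_
  rw [← mn_sum]
  have h2 : ∀ x' ∈ s, mn (fun h : (Fin n → Fin 3) → (Fin r → Bool) =>
      if h x' = h x then (1 : ℝ) else 0) = 1 / 2 ^ r := by
    intro x' hx'
    exact mn_hash (ne_of_mem_erase hx')
  rw [sum_congr rfl h2, sum_const, nsmul_eq_mul]
  have h3 : (s.card : ℝ) ≤ 2 ^ n := by
    have h4 : s.card ≤ 2 ^ n := by
      rw [← card_compat y]
      exact card_le_card (erase_subset _ _)
    exact_mod_cast h4
  calc (s.card : ℝ) * (1 / 2 ^ r) ≤ 2 ^ n * (1 / 2 ^ r) :=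
        mul_le_mul_of_nonneg_right h3 (by positivity)
    _ = _ := by ring

open Classical in
/-- a good hash function exists for every weight function -/
lemma exists_hash {A B : Type} [Fintype A] [Fintype B] (w : A → B → ℝ) (hw : ∀ a b, 0 ≤ w a b)
    (hw1 : ∑ a, ∑ b, w a b = 1) (fx : A → Fin n → Fin 3) (fy : B → Fin n → Fin 3) :
    ∃ h : (Fin n → Fin 3) → (Fin r → Bool),
      ∑ a, ∑ b, w a b * (if Coll h (fx a) (fy b) then (1 : ℝ) else 0) ≤ 2 ^ n / 2 ^ r := by
  by_contra hcon
  push Not at hcon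
  have h1 : (2 : ℝ) ^ n / 2 ^ r < mn (fun h : (Fin n → Fin 3) → (Fin r → Bool) =>
      ∑ a, ∑ b, w a b * (if Coll h (fx a) (fy b) then (1 : ℝ) else 0)) := by
    have h2 : mn (fun _ : (Fin n → Fin 3) → (Fin r → Bool) => (2 : ℝ) ^ n / 2 ^ r) =
      (2 : ℝ) ^ n / 2 ^ r := mn_const _
    rw [← h2]
    unfold mn
    refine div_lt_div_of_pos_right ?_ (by exact_mod_cast Fintype.card_pos)
    exact sum_lt_sum_of_nonempty ⟨fun _ _ => true, mem_univ _⟩ fun h _ => hcon h
  have h3 : mn (fun h : (Fin n → Fin 3) → (Fin r → Bool) =>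
      ∑ a, ∑ b, w a b * (if Coll h (fx a) (fy b) then (1 : ℝ) else 0)) ≤ 2 ^ n / 2 ^ r := by
    rw [← mn_sum]
    have h4 : ∀ a ∈ (univ : Finset A), mn (fun h : (Fin n → Fin 3) → (Fin r → Bool) =>
        ∑ b, w a b * (if Coll h (fx a) (fy b) then (1 : ℝ) else 0)) ≤
        ∑ b, w a b * (2 ^ n / 2 ^ r) := by
      intro a _
      rw [← mn_sum]
      refine sum_le_sum fun b _ => ?_
      rw [mn_mul_left]
      exact mul_le_mul_of_nonneg_left (mn_coll_le _ _) (hw a b)
    refine (sum_le_sum h4).trans (le_of_eq ?_)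
    simp only [← sum_mul]
    rw [hw1, one_mul]
  linarith

end hash

section upper
variable {P Q : Type} [Fintype P] [Fintype Q] [DecidableEq P] [DecidableEq Q]
  [Nonempty P] [Nonempty Q] {m : ℕ}
  (encA : Fin 3 × (P → Q) → (Fin m → Bool)) (decA : (Fin m → Bool) → Fin 3 × (P → Q))
  (encB : Fin 3 × (Bool → P × Q) → (Fin m → Bool)) (decB : (Fin m → Bool) → Fin 3 × (Bool → P × Q))

lemma sum_powμ {X Y : Type} [Fintype X] [Fintype Y] (μ : X → Y → ℝ)
    (hμ : ∑ x, ∑ y, μ x y = 1) (n : ℕ) : ∑ x, ∑ y, powμ μ n x y = 1 := by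
  unfold powμ
  have h1 : ∀ x : Fin n → X, ∑ y : Fin n → Y, ∏ i, μ (x i) (y i) = ∏ i, ∑ y, μ (x i) y := by
    intro x
    rw [Fintype.prod_sum]
  simp only [h1]
  rw [← Fintype.prod_sum (fun (_ : Fin n) (x : X) => ∑ y, μ x y), hμ]
  simp

omit [Nonempty P] [Nonempty Q] [Fintype P] [Fintype Q] [DecidableEq Q] in
lemma dec_eq (ω : Om P Q) : decide ((inA ω).1 = (inB ω).1 + 1) = ω.1.2 := by
  have : ∀ (y : Fin 3) (e : Bool), decide (nv y e = y + 1) = e := by decide
  exact this _ _

omit [Nonempty P] [Nonempty Q] [Fintype P] [Fintype Q] [DecidableEq Q] in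
lemma hit_self (ω : Om P Q) :
    (inA ω).2 ((inB ω).2 ω.1.2).1 = ((inB ω).2 ω.1.2).2 := by
  simp [inA, inB, pr2, plant]

omit [Nonempty P] [Nonempty Q] in
open Classical in
/-- The amortised protocol. -/
theorem CC_le {k : ℕ} (hk : Fintype.card (P × Q) = 2 ^ k) [Nonempty (P × Q)]
    (hA : ∀ x, decA (encA x) = x) (hB : ∀ y, decB (encB y) = y) [Nonempty (Om P Q)] (n s : ℕ) :
    ∃ T : Prot (Fin n → (Fin m → Bool)) (Fin n → (Fin m → Bool)) (Fin n → Bool),
      T.ZeroError (powF (Fbit decA decB) n) ∧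
      T.cost (powμ (push (fun ω : Om P Q => encA (inA ω)) (fun ω => encB (inB ω))) n) ≤
      (n + s) + n * k + 1 + (n * m + n) * (1 / 2 ^ s) := by
  set μ : (Fin m → Bool) → (Fin m → Bool) → ℝ :=
    push (fun ω : Om P Q => encA (inA ω)) (fun ω => encB (inB ω)) with hμdef
  have hμ : IsProb μ := push_isProb _ _
  have hμn0 : ∀ u v, 0 ≤ powμ μ n u v := fun u v => prod_nonneg fun i _ => hμ.1 _ _
  have hμn1 := sum_powμ μ hμ.2 n
  -- hash function
  obtain ⟨h, hh⟩ := exists_hash (r := n + s) (powμ μ n) hμn0 hμn1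
    (fun u i => (decA (u i)).1) (fun v i => (decB (v i)).1)
  -- codes
  obtain ⟨enc1, dec1, hcode1⟩ := exists_code (Fin n → P × Q) (n * k) (by
    rw [Fintype.card_fun, hk, Fintype.card_fin, ← pow_mul, mul_comm])
  obtain ⟨enc2, dec2, hcode2⟩ := exists_code (Fin n → (Fin m → Bool)) (n * m) (by
    simp [← pow_mul, mul_comm])
  -- Bob's decoding
  set xhat : (Fin (n + s) → Bool) → (Fin n → Fin 3) → (Fin n → Fin 3) := fun z y =>
    if hx : ∃ x' : Fin n → Fin 3, (∀ i, x' i ≠ y i) ∧ h x' = z then Classical.choose hx else y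
    with hxhat
  set its : (Fin n → (Fin m → Bool)) → (Fin (n + s) → Bool) → (Fin n → P × Q) := fun v z i =>
    (decB (v i)).2 (decide (xhat z (fun i => (decB (v i)).1) i = (decB (v i)).1 + 1)) with hits
  set okA : (Fin n → (Fin m → Bool)) → (Fin n → P × Q) → Bool := fun u w =>
    decide (∀ i, (decA (u i)).2 (w i).1 = (w i).2) with hokA
  set T : Prot (Fin n → (Fin m → Bool)) (Fin n → (Fin m → Bool)) (Fin n → Bool) :=
    sendA (n + s) (fun u => h fun i => (decA (u i)).1) (fun z =>
      sendB (n * k) (fun v => enc1 (its v z)) (fun w =>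
        sendA 1 (fun u _ => okA u (dec1 w)) (fun ok =>
          if ok 0 then Prot.out (fun _ => false) else
            sendA (n * m) (fun u => enc2 u) (fun uu =>
              sendB n (fun v i => Fbit decA decB (dec2 uu i) (v i)) (fun o => Prot.out o)))))
    with hT
  have hex : ∀ u v (φ : (Fin n → Bool) → ℕ → ℝ), T.ex u v φ =
      if okA u (its v (h fun i => (decA (u i)).1)) then φ (fun _ => false) (0 + 1 + n * k + (n + s))
      else φ (fun i => Fbit decA decB (u i) (v i)) (0 + n + n * m + 1 + n * k + (n + s)) := by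
    intro u v φ
    rw [hT, ex_sendA, ex_sendB, ex_sendA, hcode1]
    cases hok : okA u (its v (h fun i => (decA (u i)).1)) with
    | true =>
      simp only [if_true]
      rw [ex_out]
    | false =>
      simp only [Bool.false_eq_true, if_false]
      rw [ex_sendA, ex_sendB, ex_out, hcode2]
  have hZ : T.ZeroError (powF (Fbit decA decB) n) := by
    apply zeroError_of_ex
    intro u v
    rw [hex]
    split_ifs with h1 h2 h3
    · rfl
    · exfalso
      apply h2
      funext i
      have h4 := (of_decide_eq_true h1) i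
      unfold powF Fbit
      have h5 : Hit (decA (u i)).2 (decB (v i)).2 := ⟨_, h4⟩
      simp [h5]
    · rfl
    · exact absurd rfl h3
  refine ⟨T, hZ, ?_⟩
  -- failure implies collision on the support
  have hfail : ∀ u v, powμ μ n u v ≠ 0 →
      okA u (its v (h fun i => (decA (u i)).1)) = false →
      Coll h (fun i => (decA (u i)).1) (fun i => (decB (v i)).1) := by
    intro u v hne hok
    by_contra hcoll
    have hsupp : ∀ i, ∃ ω : Om P Q, encA (inA ω) = u i ∧ encB (inB ω) = v i := by
      intro i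
      by_contra hcon
      push Not at hcon
      apply hne
      unfold powμ
      refine prod_eq_zero (mem_univ i) ?_
      rw [hμdef]
      unfold push
      have h1 : ∀ ω : Om P Q, (if encA (inA ω) = u i ∧ encB (inB ω) = v i then (1 : ℝ) else 0) = 0 :=
        fun ω => if_neg fun hh => hcon ω hh.1 hh.2
      rw [mn_congr h1]; simp [mn]
    have hnvne : ∀ (y : Fin 3) (e : Bool), nv y e ≠ y := by decide
    have hcompat : ∀ i, (decA (u i)).1 ≠ (decB (v i)).1 := by
      intro i
      obtain ⟨ω, h1, h2⟩ := hsupp i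
      rw [← h1, ← h2, hA, hB]
      exact hnvne _ _
    have hxeq : xhat (h fun i => (decA (u i)).1) (fun i => (decB (v i)).1) =
        fun i => (decA (u i)).1 := by
      have hx : ∃ x' : Fin n → Fin 3, (∀ i, x' i ≠ (decB (v i)).1) ∧
          h x' = h fun i => (decA (u i)).1 := ⟨_, hcompat, rfl⟩
      have h1 : xhat (h fun i => (decA (u i)).1) (fun i => (decB (v i)).1) =
          Classical.choose hx := by
        rw [hxhat]; exact dif_pos hx
      rw [h1]
      by_contra hne2
      exact hcoll ⟨_, hne2, (Classical.choose_spec hx).1, (Classical.choose_spec hx).2⟩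
    have hokt : okA u (its v (h fun i => (decA (u i)).1)) = true := by
      simp only [hokA]
      rw [decide_eq_true_iff]
      intro i
      simp only [hits, hxeq]
      obtain ⟨ω, h1, h2⟩ := hsupp i
      rw [← h1, ← h2, hA, hB]
      rw [dec_eq]
      exact hit_self ω
    rw [hokt] at hok
    exact absurd hok (by simp)
  rw [cost_eq]
  set base : ℝ := (n + s) + n * k + 1 with hbase
  have hpt : ∀ u v, powμ μ n u v * T.ex u v (fun _ n => (n : ℝ)) ≤
      powμ μ n u v * base + (n * m + n) * (powμ μ n u v *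
        (if Coll h (fun i => (decA (u i)).1) (fun i => (decB (v i)).1) then (1 : ℝ) else 0)) := by
    intro u v
    rw [hex]
    rcases eq_or_ne (powμ μ n u v) 0 with h0 | h0
    · rw [h0]; simp
    cases hok : okA u (its v (h fun i => (decA (u i)).1)) with
    | true =>
      simp only [if_true]
      have h1 : 0 ≤ ((n : ℝ) * m + n) * (powμ μ n u v *
          (if Coll h (fun i => (decA (u i)).1) (fun i => (decB (v i)).1) then (1 : ℝ) else 0)) :=
        mul_nonneg (by positivity) (mul_nonneg (hμn0 u v) (by split_ifs <;> norm_num))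
      have h2 : ((0 + 1 + n * k + (n + s) : ℕ) : ℝ) = base := by
        rw [hbase]; push_cast; ring
      rw [h2]
      linarith
    | false =>
      simp only [Bool.false_eq_true, if_false]
      rw [if_pos (hfail u v h0 hok)]
      have h2 : ((0 + n + n * m + 1 + n * k + (n + s) : ℕ) : ℝ) = base + (n * m + n) := by
        rw [hbase]; push_cast; ring
      rw [h2]
      apply le_of_eq; ring
  have hsum : ∑ u, ∑ v, powμ μ n u v * T.ex u v (fun _ n => (n : ℝ)) ≤
      ∑ u, ∑ v, (powμ μ n u v * base + (n * m + n) * (powμ μ n u v *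
        (if Coll h (fun i => (decA (u i)).1) (fun i => (decB (v i)).1) then (1 : ℝ) else 0))) :=
    sum_le_sum fun u _ => sum_le_sum fun v _ => hpt u v
  refine hsum.trans ?_
  simp only [sum_add_distrib, ← mul_sum, ← sum_mul]
  rw [hμn1, one_mul]
  have h3 : ((n : ℝ) * m + n) * ∑ u, ∑ v, powμ μ n u v *
        (if Coll h (fun i => (decA (u i)).1) (fun i => (decB (v i)).1) then (1 : ℝ) else 0) ≤
      ((n : ℝ) * m + n) * (1 / 2 ^ s) := by
    refine mul_le_mul_of_nonneg_left (hh.trans (le_of_eq ?_)) (by positivity)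
    rw [pow_add]
    field_simp
  simp only [mul_sum] at h3 ⊢
  linarith

end upper

end H644R2
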