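import Pool.Agent.H74R2.WT.Stmts

set_option autoImplicit false

open MeasureTheory Set

namespace H74R2.WT

theorem g2_cont (p q r s : ℝ) (v : ℂ) :
    Continuous (fun z : ℂ => (⟨p * z.re + q * z.im, r * z.re + s * z.im⟩ : ℂ) + v) := by
  have h : (fun z : ℂ => (⟨p * z.re + q * z.im, r * z.re + s * z.im⟩ : ℂ) + v)
      = fun z : ℂ => ((p * z.re + q * z.im : ℝ) : ℂ)
        + ((r * z.re + s * z.im : ℝ) : ℂ) * Complex.I + v := by
    funext z
    rw [Complex.mk_eq_add_mul_I]
  rw [h]
  have h1 : Continuous fun z : ℂ => p * z.re + q * z.im :=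
    (continuous_const.mul Complex.continuous_re).add (continuous_const.mul Complex.continuous_im)
  have h2 : Continuous fun z : ℂ => r * z.re + s * z.im :=
    (continuous_const.mul Complex.continuous_re).add (continuous_const.mul Complex.continuous_im)
  exact ((Complex.continuous_ofReal.comp h1).add
    ((Complex.continuous_ofReal.comp h2).mul continuous_const)).add continuous_const

noncomputable def g2_homeo (p q r s : ℝ) (v : ℂ) (h : p * s - q * r ≠ 0) : ℂ ≃ₜ ℂ where
  toFun := fun z : ℂ => (⟨p * z.re + q * z.im, r * z.re + s * z.im⟩ : ℂ) + v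
  invFun := fun z : ℂ => (⟨(s * (p * s - q * r)⁻¹) * z.re + (-q * (p * s - q * r)⁻¹) * z.im,
    (-r * (p * s - q * r)⁻¹) * z.re + (p * (p * s - q * r)⁻¹) * z.im⟩ : ℂ) +
    (⟨-((s * (p * s - q * r)⁻¹) * v.re + (-q * (p * s - q * r)⁻¹) * v.im),
      -((-r * (p * s - q * r)⁻¹) * v.re + (p * (p * s - q * r)⁻¹) * v.im)⟩ : ℂ)
  left_inv := by
    intro z
    have hd : (p * s - q * r) * (p * s - q * r)⁻¹ = 1 := mul_inv_cancel₀ h
    apply Complex.ext
    · simp only [Complex.add_re, Complex.add_im]
      linear_combination z.re * hd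
    · simp only [Complex.add_re, Complex.add_im]
      linear_combination z.im * hd
  right_inv := by
    intro z
    have hd : (p * s - q * r) * (p * s - q * r)⁻¹ = 1 := mul_inv_cancel₀ h
    apply Complex.ext
    · simp only [Complex.add_re, Complex.add_im]
      linear_combination (z.re - v.re) * hd
    · simp only [Complex.add_re, Complex.add_im]
      linear_combination (z.im - v.im) * hd
  continuous_toFun := g2_cont p q r s v
  continuous_invFun := g2_cont _ _ _ _ _

theorem t_G2 : T_G2 := by
  classical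
  constructor
  · intro K p q r s v G hp hq hr hs hΔ hG
    have hc := g2_cont p q r s v
    refine ⟨?_, ?_⟩
    · exact (hG.bdd.isCompact_closure.image hc).isBounded.subset (image_mono subset_closure)
    · obtain ⟨L, hL, hfr⟩ := hG.lines
      refine ⟨L.image (fun t => (t.1 * s - t.2.1 * r, t.2.1 * p - t.1 * q,
        t.2.2 * (p * s - q * r) + (t.1 * s - t.2.1 * r) * v.re + (t.2.1 * p - t.1 * q) * v.im)),
        ?_, ?_⟩
      · intro t' ht'
        obtain ⟨t, ht, rfl⟩ := Finset.mem_image.1 ht'
        obtain ⟨h1, h2, h3⟩ := hL t ht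
        refine ⟨K.sub_mem (K.mul_mem h1 hs) (K.mul_mem h2 hr),
          K.sub_mem (K.mul_mem h2 hp) (K.mul_mem h1 hq), ?_⟩
        by_contra hcon
        push Not at hcon
        obtain ⟨e1, e2⟩ := hcon
        simp only at e1 e2
        have ha : t.1 * (p * s - q * r) = 0 := by
          have : t.1 * (p * s - q * r) = p * (t.1 * s - t.2.1 * r) + r * (t.2.1 * p - t.1 * q) := by
            ring
          rw [this, e1, e2]; ring
        have hb : t.2.1 * (p * s - q * r) = 0 := by
          have : t.2.1 * (p * s - q * r)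
              = q * (t.1 * s - t.2.1 * r) + s * (t.2.1 * p - t.1 * q) := by
            ring
          rw [this, e1, e2]; ring
        rcases h3 with h3 | h3
        · exact h3 ((mul_eq_zero.1 ha).resolve_right hΔ)
        · exact h3 ((mul_eq_zero.1 hb).resolve_right hΔ)
      · have him : frontier ((fun z : ℂ => (⟨p * z.re + q * z.im, r * z.re + s * z.im⟩ : ℂ) + v) '' G)
            = (g2_homeo p q r s v hΔ) '' frontier G :=
          ((g2_homeo p q r s v hΔ).image_frontier G).symm
        rw [him]
        rintro _ ⟨z, hz, rfl⟩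
        obtain ⟨t, ht, hzt⟩ := hfr hz
        refine ⟨_, Finset.mem_image_of_mem _ ht, ?_⟩
        show (t.1 * s - t.2.1 * r) * (p * z.re + q * z.im + v.re)
          + (t.2.1 * p - t.1 * q) * (r * z.re + s * z.im + v.im)
          = t.2.2 * (p * s - q * r) + (t.1 * s - t.2.1 * r) * v.re + (t.2.1 * p - t.1 * q) * v.im
        rw [← hzt]
        ring
  · intro K A B hA hB
    refine ⟨hA.bdd.subset inter_subset_left, ?_⟩
    obtain ⟨L, hL, hfr⟩ := hA.lines
    obtain ⟨L', hL', hfr'⟩ := hB.lines
    refine ⟨L ∪ L', ?_, ?_⟩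
    · intro t ht
      rcases Finset.mem_union.1 ht with h | h
      · exact hL t h
      · exact hL' t h
    · intro z hz
      rcases frontier_inter_subset A B hz with h | h
      · obtain ⟨t, ht, hzt⟩ := hfr h.1
        exact ⟨t, Finset.mem_union_left _ ht, hzt⟩
      · obtain ⟨t, ht, hzt⟩ := hfr' h.2
        exact ⟨t, Finset.mem_union_right _ ht, hzt⟩

end H74R2.WT
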